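import Pool.Agent.R191.EO.Defs

/-!
# Corollaries of the gluing statement (MP_585e73_co)
-/

namespace Pool.Agent.R191.EO

theorem HasRep.mono {G : Type} [Group G] {r r' : ℝ} (h : HasRep G r) (hr : r ≤ r') :
    HasRep G r' := by
  obtain ⟨V, C, fV, fC, act, arc, v0, c0, h1, h2, h3, h4, h5, h6⟩ := h
  refine ⟨V, C, fV, fC, act, arc, v0, c0, h1, h2, h3, h4, h5, h6.trans ?_⟩
  gcongr

/-- The cost of a representation is positive. -/
theorem HasRep.pos {G : Type} [Group G] [Finite G] {r : ℝ} (h : HasRep G r) : 0 ≤ r := by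
  obtain ⟨V, C, fV, fC, act, arc, v0, c0, h1, h2, h3, h4, h5, h6⟩ := h
  have hG : (0 : ℝ) < Nat.card G := by exact_mod_cast Nat.card_pos
  have : 0 ≤ r * Nat.card G := le_trans (by positivity) h6
  exact nonneg_of_mul_nonneg_left this hG

/-- Corollary C0: generators. -/
theorem gens (hG : GlueStatement) {G : Type} [Group G] [Finite G] {J : Type} [Fintype J]
    (s : J → G) (hs : Subgroup.closure (Set.range s) = ⊤) :
    HasRep G (3 + 2 * Fintype.card J) := by
  have h := hG G Empty J (fun i => i.elim) (fun _ => Unit) (fun i => i.elim)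
    (fun i => i.elim) (fun i => i.elim) (fun i => i.elim) s (by simpa using hs)
    (by
      intro F hF _
      rw [eq_top_iff, ← hs, Subgroup.closure_le]
      rintro _ ⟨j, rfl⟩
      exact hF j)
  refine h.mono (le_of_eq ?_)
  simp

/-- Subgroups with representations. -/
theorem subgroups (hG : GlueStatement) {G : Type} [Group G] [Finite G] {ι J : Type} [Fintype ι]
    [Fintype J] (s : J → G) (H : ι → Subgroup G) (r : ι → ℝ) (hr : ∀ i, HasRep (H i) (r i))
    (hs : Subgroup.closure (Set.range s ∪ ⋃ i, (H i : Set G)) = ⊤) :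
    HasRep G (3 + 2 * Fintype.card J + 2 * Fintype.card ι + ∑ i, r i) := by
  have h := hG G ι J H (fun i => H i) (fun i => MonoidHom.id _)
    (fun i => Function.surjective_id) r hr s hs
    (by
      intro F hF hF2
      rw [eq_top_iff, ← hs, Subgroup.closure_le]
      rintro x (⟨j, rfl⟩ | hx)
      · exact hF j
      · obtain ⟨i, hi⟩ := Set.mem_iUnion.1 hx
        refine hF2 {i} ?_ x ?_
        · intro y hy
          obtain ⟨h, hy'⟩ := hy i rfl
          simpa using congrArg Subtype.val hy'
        · rintro i' rfl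
          exact ⟨1, F.one_mem, x, hi, by simp⟩)
  refine h.mono (le_of_eq ?_)
  congr 1
  refine Finset.sum_congr rfl fun i _ => ?_
  have : (Nat.card (H i) : ℝ) ≠ 0 := by
    have := Nat.card_pos (α := H i)
    positivity
  field_simp

/-- Corollary C3: a subgroup with two normal subgroups with trivial intersection. -/
theorem two (hG : GlueStatement) {G : Type} [Group G] [Finite G] {J : Type} [Fintype J]
    (s : J → G) (H : Subgroup G) (hs : Subgroup.closure (Set.range s ∪ (H : Set G)) = ⊤)
    (M₁ M₂ : Subgroup H) [M₁.Normal] [M₂.Normal] (hM : M₁ ⊓ M₂ = ⊥) {r₁ r₂ : ℝ}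
    (h₁ : HasRep (H ⧸ M₁) r₁) (h₂ : HasRep (H ⧸ M₂) r₂) :
    HasRep G (7 + 2 * Fintype.card J + r₁ / Nat.card M₁ + r₂ / Nat.card M₂) := by
  let M : Bool → Subgroup H := fun b => if b then M₁ else M₂
  have hMn : ∀ b, (M b).Normal := by
    intro b
    cases b
    · exact ‹M₂.Normal›
    · exact ‹M₁.Normal›
  have hs' : Subgroup.closure (Set.range s ∪ ⋃ _ : Bool, (H : Set G)) = ⊤ := by
    rw [Set.iUnion_const]
    exact hs
  have h := hG G Bool J (fun _ => H) (fun b => H ⧸ M b) (fun b => QuotientGroup.mk' (M b))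
    (fun b => QuotientGroup.mk'_surjective _) (fun b => if b then r₁ else r₂)
    (by
      intro b
      cases b
      · simpa [M] using h₂
      · simpa [M] using h₁) s hs'
    (by
      intro F hF hF2
      rw [eq_top_iff, ← hs, Subgroup.closure_le]
      rintro x (⟨j, rfl⟩ | hx)
      · exact hF j
      · refine hF2 Set.univ ?_ x ?_
        · intro y hy
          obtain ⟨h, hy1⟩ := hy true trivial
          obtain ⟨_, hy2⟩ := hy false trivial
          have e1 : (⟨y, h⟩ : H) ∈ M₁ := by
            simpa [M] using hy1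
          have e2 : (⟨y, h⟩ : H) ∈ M₂ := by
            simpa [M] using hy2
          have e3 : (⟨y, h⟩ : H) ∈ M₁ ⊓ M₂ := ⟨e1, e2⟩
          rw [hM, Subgroup.mem_bot] at e3
          exact congrArg Subtype.val e3
        · intro i' _
          exact ⟨1, F.one_mem, x, hx, by simp⟩)
  refine h.mono (le_of_eq ?_)
  have key : ∀ (N : Subgroup H), (Nat.card (H ⧸ N) : ℝ) / Nat.card H = 1 / Nat.card N := by
    intro N
    have e : (Nat.card H : ℝ) = Nat.card (H ⧸ N) * Nat.card N := by
      exact_mod_cast Subgroup.card_eq_card_quotient_mul_card_subgroup N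
    have p1 : (Nat.card N : ℝ) ≠ 0 := by
      have := Nat.card_pos (α := N)
      positivity
    have p2 : (Nat.card (H ⧸ N) : ℝ) ≠ 0 := by
      have := Nat.card_pos (α := H ⧸ N)
      positivity
    rw [e]
    field_simp
  rw [Fintype.sum_bool]
  simp only [M, Fintype.card_bool, if_true]
  have k1 := key M₁
  have k2 := key M₂
  simp only [mul_div_assoc, Bool.false_eq_true, if_false]
  rw [k1, k2]
  push_cast
  ring

end Pool.Agent.R191.EO
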