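import Mathlib

/-!
# Rigid coloured digraph representations (MP_585e73_co)

`HasRep G r`: the finite group `G` acts on a finite set `V` preserving a finite family of
coloured arcs, freely on the orbit of a base point `v0`; the orbit of `v0` is marked by loops of
colour `c0`; the structure is connected; an arc-preserving permutation fixing `v0` is trivial;
and the cost `|V| + |C| + #arcs` is at most `r * |G|`.
-/

namespace Pool.Agent.R191.EO

/-- Rigid coloured digraph representation of `G` of cost at most `r * |G|`. -/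
def HasRep (G : Type) [Group G] (r : ℝ) : Prop :=
  ∃ (V C : Type) (_ : Finite V) (_ : Finite C) (_ : MulAction G V)
    (arc : C → V → V → Prop) (v0 : V) (c0 : C),
    (∀ (g : G) (c : C) (v w : V), arc c (g • v) (g • w) ↔ arc c v w) ∧
    (∀ g : G, g • v0 = v0 → g = 1) ∧
    (∀ v w : V, arc c0 v w ↔ (v = w ∧ ∃ g : G, g • v0 = v)) ∧
    (∀ v : V, Relation.ReflTransGen (fun a b => ∃ c, arc c a b ∨ arc c b a) v0 v) ∧
    (∀ σ : Equiv.Perm V, (∀ (c : C) (v w : V), arc c (σ v) (σ w) ↔ arc c v w) →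
      σ v0 = v0 → σ = 1) ∧
    ((Nat.card V : ℝ) + Nat.card C + Nat.card {p : C × V × V // arc p.1 p.2.1 p.2.2}
      ≤ r * Nat.card G)

/-- The gluing statement (Part B). -/
def GlueStatement : Prop :=
  ∀ (G : Type) [Group G] [Finite G] (ι J : Type) [Fintype ι] [Fintype J]
    (H : ι → Subgroup G) (Q : ι → Type) [∀ i, Group (Q i)] [∀ i, Finite (Q i)]
    (φ : ∀ i, H i →* Q i) (_ : ∀ i, Function.Surjective (φ i))
    (r : ι → ℝ) (_ : ∀ i, HasRep (Q i) (r i)) (s : J → G)
    (_ : Subgroup.closure (Set.range s ∪ ⋃ i, (H i : Set G)) = ⊤)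
    (_ : ∀ F : Subgroup G, (∀ j, s j ∈ F) →
      (∀ I' : Set ι, (∀ x : G, (∀ i ∈ I', ∃ h : x ∈ H i, φ i ⟨x, h⟩ = 1) → x = 1) →
        ∀ g : G, (∀ i ∈ I', ∃ f ∈ F, ∃ h ∈ H i, g = f * h) → g ∈ F) → F = ⊤),
    HasRep G (3 + 2 * Fintype.card J + 2 * Fintype.card ι +
      ∑ i, r i * Nat.card (Q i) / Nat.card (H i))

/-- The graph encoding statement (Part A). -/
def EncodeStatement : Prop :=
  ∀ (G : Type) [Group G] [Finite G] (r : ℝ), HasRep G r →
    ∃ (V : Type) (_ : Finite V) (X : SimpleGraph V),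
      Nonempty ((X ≃g X) ≃* G) ∧ (Nat.card X.edgeSet : ℝ) ≤ 10 * r * Nat.card G

/-- The statement for groups of prime power order (Part D). -/
def PGroupStatement : Prop :=
  ∃ cA : ℝ, ∀ (p : ℕ), p.Prime → ∀ (P : Type) [Group P] [Finite P], IsPGroup p P → HasRep P cA

/-- The statement for finite solvable groups (Part E). -/
def SolvableStatement : Prop :=
  ∃ cS : ℝ, ∀ (G : Type) [Group G] [Finite G], Group.IsSolvable G → HasRep G cS

end Pool.Agent.R191.EO
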