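import Pool.Agent.R191.EO.Defs

/-!
# Groups whose simple sections are generated by `D` elements (MP_585e73_co, part F)
-/

namespace Pool.Agent.R191.EO

/-- Every simple section of `G` is generated by `D` elements. -/
def SectGen (D : ℕ) (G : Type) [Group G] : Prop :=
  ∀ (H : Subgroup G) (M : Subgroup H) [M.Normal], IsSimpleGroup (H ⧸ M) →
    ∃ s : Fin D → H ⧸ M, Subgroup.closure (Set.range s) = ⊤

/-- The statement of part F. -/
def SimpleGenStatement : Prop :=
  ∀ D : ℕ, ∃ c : ℝ, ∀ (G : Type) [Group G] [Finite G], SectGen D G → HasRep G c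

end Pool.Agent.R191.EO
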