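import Pool.Agent.R191.EO.Defs
import Pool.Agent.R715.Enc.Frame

/-!
# Part A: encoding of a rigid coloured digraph by a simple graph
-/

set_option autoImplicit false
set_option maxHeartbeats 400000

namespace Pool.Agent.R715.Enc

section digraph

variable {V C : Type} (arc : C → V → V → Prop)

/-- the arcs -/
abbrev Ar := {p : C × V × V // arc p.1 p.2.1 p.2.2}

/-- adjacency of the subdivided graph -/
def wAdj : V ⊕ (Ar arc ⊕ Ar arc) → V ⊕ (Ar arc ⊕ Ar arc) → Prop
  | Sum.inl v, Sum.inr (Sum.inl e) => e.1.2.1 = v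
  | Sum.inr (Sum.inl e), Sum.inl v => e.1.2.1 = v
  | Sum.inr (Sum.inl e), Sum.inr (Sum.inr f) => e = f
  | Sum.inr (Sum.inr f), Sum.inr (Sum.inl e) => e = f
  | Sum.inl v, Sum.inr (Sum.inr e) => e.1.2.2 = v
  | Sum.inr (Sum.inr e), Sum.inl v => e.1.2.2 = v
  | Sum.inl _, Sum.inl _ => False
  | Sum.inr (Sum.inl _), Sum.inr (Sum.inl _) => False
  | Sum.inr (Sum.inr _), Sum.inr (Sum.inr _) => False

/-- the subdivided graph -/
def dg : SimpleGraph (V ⊕ (Ar arc ⊕ Ar arc)) where
  Adj := wAdj arc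
  symm := ⟨by
    rintro (u | i | i) (v | j | j) h
    · exact h
    · exact h
    · exact h
    · exact h
    · exact h
    · exact h
    · exact h
    · exact h
    · exact h⟩
  loopless := ⟨by
    rintro (u | i | i) h
    · exact h
    · exact h
    · exact h⟩

variable {m : ℕ} (idx : C ≃ Fin m)

/-- the classes -/
def kap : V ⊕ (Ar arc ⊕ Ar arc) → Fin (m + 2 + 1)
  | Sum.inl _ => ⟨2, by omega⟩
  | Sum.inr (Sum.inl _) => ⟨1, by omega⟩
  | Sum.inr (Sum.inr e) => ⟨3 + (idx e.1.1 : ℕ), by have := (idx e.1.1).isLt; omega⟩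

theorem kap_v (v : V) : (kap arc idx (Sum.inl v) : ℕ) = 2 := rfl
theorem kap_1 (e : Ar arc) : (kap arc idx (Sum.inr (Sum.inl e)) : ℕ) = 1 := rfl
theorem kap_2 (e : Ar arc) : (kap arc idx (Sum.inr (Sum.inr e)) : ℕ) = 3 + (idx e.1.1 : ℕ) := rfl

variable {arc}

/-- the action on arcs -/
@[reducible] def actA {G : Type} [Group G] [MulAction G V]
    (h1 : ∀ (g : G) (c : C) (v w : V), arc c (g • v) (g • w) ↔ arc c v w) :
    MulAction G (Ar arc) where
  smul g e := ⟨(e.1.1, g • e.1.2.1, g • e.1.2.2), (h1 g _ _ _).2 e.2⟩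
  one_smul e := by
    apply Subtype.ext
    show (e.1.1, (1 : G) • e.1.2.1, (1 : G) • e.1.2.2) = e.1
    rw [one_smul, one_smul]
  mul_smul g h e := by
    apply Subtype.ext
    show (e.1.1, (g * h) • e.1.2.1, (g * h) • e.1.2.2) =
      (e.1.1, g • (h • e.1.2.1), g • (h • e.1.2.2))
    rw [mul_smul, mul_smul]

/-- covering of the edges of the framed graph -/
def cov {N : ℕ} (κ : V ⊕ (Ar arc ⊕ Ar arc) → Fin (N + 1)) :
    (Ar arc ⊕ (Ar arc ⊕ Ar arc)) ⊕ ((V ⊕ (Ar arc ⊕ Ar arc)) ⊕ (Fin (N + 1) ⊕ Fin (N + 1))) →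
      Sym2 (FV (V ⊕ (Ar arc ⊕ Ar arc)) N)
  | Sum.inl (Sum.inl e) => s(Sum.inl (Sum.inl e.1.2.1), Sum.inl (Sum.inr (Sum.inl e)))
  | Sum.inl (Sum.inr (Sum.inl e)) =>
      s(Sum.inl (Sum.inr (Sum.inl e)), Sum.inl (Sum.inr (Sum.inr e)))
  | Sum.inl (Sum.inr (Sum.inr e)) => s(Sum.inl (Sum.inl e.1.2.2), Sum.inl (Sum.inr (Sum.inr e)))
  | Sum.inr (Sum.inl u) => s(Sum.inl u, Sum.inr (Sum.inl (κ u)))
  | Sum.inr (Sum.inr (Sum.inl i)) =>
      if h : (i : ℕ) + 1 < N + 1 then s(Sum.inr (Sum.inl i), Sum.inr (Sum.inl ⟨i + 1, h⟩))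
      else s(Sum.inr (Sum.inl i), Sum.inr (Sum.inl i))
  | Sum.inr (Sum.inr (Sum.inr i)) => s(Sum.inr (Sum.inl i), Sum.inr (Sum.inr i))

theorem cov_w {N : ℕ} (κ : V ⊕ (Ar arc ⊕ Ar arc) → Fin (N + 1))
    (u v : V ⊕ (Ar arc ⊕ Ar arc)) (h : (dg arc).Adj u v) :
    ∃ t, cov κ t = s(Sum.inl u, Sum.inl v) := by
  rcases u with u | e | e <;> rcases v with v | f | f
  · exact h.elim
  · have h' : f.1.2.1 = u := h
    exact ⟨Sum.inl (Sum.inl f), by rw [← h']; rfl⟩
  · have h' : f.1.2.2 = u := h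
    exact ⟨Sum.inl (Sum.inr (Sum.inr f)), by rw [← h']; rfl⟩
  · have h' : e.1.2.1 = v := h
    exact ⟨Sum.inl (Sum.inl e), by rw [← h']; exact Sym2.eq_swap⟩
  · exact h.elim
  · have h' : e = f := h
    exact ⟨Sum.inl (Sum.inr (Sum.inl e)), by rw [← h']; rfl⟩
  · have h' : e.1.2.2 = v := h
    exact ⟨Sum.inl (Sum.inr (Sum.inr e)), by rw [← h']; exact Sym2.eq_swap⟩
  · have h' : f = e := h
    exact ⟨Sum.inl (Sum.inr (Sum.inl e)), by rw [h']; exact Sym2.eq_swap⟩
  · exact h.elim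

theorem cov_pp {N : ℕ} (κ : V ⊕ (Ar arc ⊕ Ar arc) → Fin (N + 1)) (i j : Fin (N + 1))
    (h : (i : ℕ) + 1 = j) :
    cov κ (Sum.inr (Sum.inr (Sum.inl i))) = s(Sum.inr (Sum.inl i), Sum.inr (Sum.inl j)) := by
  have h1 : (i : ℕ) + 1 < N + 1 := by rw [h]; exact j.isLt
  show (if h : (i : ℕ) + 1 < N + 1 then s(Sum.inr (Sum.inl i), Sum.inr (Sum.inl ⟨i + 1, h⟩))
      else s(Sum.inr (Sum.inl i), Sum.inr (Sum.inl i))) = _
  rw [dif_pos h1]
  have h2 : (⟨(i : ℕ) + 1, h1⟩ : Fin (N + 1)) = j := Fin.ext h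
  rw [h2]

theorem cov_surj {N : ℕ} (κ : V ⊕ (Ar arc ⊕ Ar arc) → Fin (N + 1)) :
    (fr (dg arc) κ).edgeSet ⊆ Set.range (cov κ) := by
  intro e
  induction e using Sym2.ind with
  | _ x y =>
    intro h
    rw [SimpleGraph.mem_edgeSet] at h
    rcases x with u | i | i <;> rcases y with v | j | j
    · exact cov_w κ u v h
    · have h' : κ u = j := h
      exact ⟨Sum.inr (Sum.inl u), by rw [← h']; rfl⟩
    · exact h.elim
    · have h' : κ v = i := h
      exact ⟨Sum.inr (Sum.inl v), by rw [← h']; exact Sym2.eq_swap⟩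
    · rcases h with h | h
      · exact ⟨_, cov_pp κ i j h⟩
      · exact ⟨_, (cov_pp κ j i h).trans Sym2.eq_swap⟩
    · have h' : i = j := h
      exact ⟨Sum.inr (Sum.inr (Sum.inr i)), by rw [← h']; rfl⟩
    · exact h.elim
    · have h' : i = j := h
      exact ⟨Sum.inr (Sum.inr (Sum.inr i)), by rw [← h']; exact Sym2.eq_swap⟩
    · exact h.elim

theorem enc_main {G : Type} [Group G] [Finite V] [Finite C] [MulAction G V] (v0 : V) (c0 : C)
    (h1 : ∀ (g : G) (c : C) (v w : V), arc c (g • v) (g • w) ↔ arc c v w)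
    (h2 : ∀ g : G, g • v0 = v0 → g = 1)
    (h3 : ∀ v w : V, arc c0 v w ↔ (v = w ∧ ∃ g : G, g • v0 = v))
    (h4 : ∀ v : V, Relation.ReflTransGen (fun a b => ∃ c, arc c a b ∨ arc c b a) v0 v)
    (h5 : ∀ σ : Equiv.Perm V, (∀ (c : C) (v w : V), arc c (σ v) (σ w) ↔ arc c v w) →
      σ v0 = v0 → σ = 1)
    (hC : ∀ c : C, ∃ v w, arc c v w) :
    ∃ (T : Type) (_ : Finite T) (X : SimpleGraph T), Nonempty ((X ≃g X) ≃* G) ∧
      Nat.card X.edgeSet ≤ 10 * (Nat.card V + Nat.card C + Nat.card (Ar arc)) := by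
  classical
  let idx : C ≃ Fin (Nat.card C) := Finite.equivFin C
  have h00 : arc c0 v0 v0 := (h3 v0 v0).2 ⟨rfl, 1, one_smul G v0⟩
  let e0 : Ar arc := ⟨(c0, v0, v0), h00⟩
  let _ := actA h1
  refine ⟨FV (V ⊕ (Ar arc ⊕ Ar arc)) (Nat.card C + 2), inferInstance,
    fr (dg arc) (kap arc idx), ?_, ?_⟩
  · have hX : ∀ u, ∃ v, (dg arc).Adj u v := by
      rintro (v | e | e)
      · rcases (h4 v).cases_tail with h | ⟨b, -, c, h | h⟩
        · exact ⟨Sum.inr (Sum.inl e0), h.symm⟩
        · exact ⟨Sum.inr (Sum.inr ⟨(c, b, v), h⟩), rfl⟩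
        · exact ⟨Sum.inr (Sum.inl ⟨(c, v, b), h⟩), rfl⟩
      · exact ⟨Sum.inr (Sum.inr e), rfl⟩
      · exact ⟨Sum.inr (Sum.inl e), rfl⟩
    have hκ : ∀ u, kap arc idx u ≠ 0 := by
      intro u h
      have h' := congrArg Fin.val h
      rcases u with v | e | e
      · rw [kap_v] at h'; simp at h'
      · rw [kap_1] at h'; simp at h'
      · rw [kap_2] at h'; simp at h'
    have hs : ∀ i : Fin (Nat.card C + 2 + 1), i ≠ 0 → ∃ u, kap arc idx u = i := by
      intro i hi
      have hi0 : (i : ℕ) ≠ 0 := fun h => hi (Fin.ext h)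
      by_cases hi1 : (i : ℕ) = 1
      · exact ⟨Sum.inr (Sum.inl e0), Fin.ext (by rw [kap_1, hi1])⟩
      · by_cases hi2 : (i : ℕ) = 2
        · exact ⟨Sum.inl v0, Fin.ext (by rw [kap_v, hi2])⟩
        · have hlt := i.isLt
          obtain ⟨v, w, hvw⟩ := hC (idx.symm ⟨(i : ℕ) - 3, by omega⟩)
          refine ⟨Sum.inr (Sum.inr ⟨(_, v, w), hvw⟩), Fin.ext ?_⟩
          rw [kap_2]
          show 3 + (idx (idx.symm ⟨(i : ℕ) - 3, _⟩) : ℕ) = i
          rw [Equiv.apply_symm_apply]
          show 3 + ((i : ℕ) - 3) = i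
          omega
    refine frame_main (by omega) hX hκ hs (MulAction.toPermHom G _) ?_ ?_ ?_ ?_
    · intro g h hgh
      have h6 : (MulAction.toPermHom G (V ⊕ (Ar arc ⊕ Ar arc)) g) (Sum.inl v0) =
        (MulAction.toPermHom G (V ⊕ (Ar arc ⊕ Ar arc)) h) (Sum.inl v0) := by rw [hgh]
      have h7 : g • v0 = h • v0 := Sum.inl.inj h6
      have h8 : (h⁻¹ * g) • v0 = v0 := by rw [mul_smul, h7, inv_smul_smul]
      exact (inv_mul_eq_one.1 (h2 _ h8)).symm
    · intro g u v
      rcases u with u | e | e <;> rcases v with v | f | f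
      · exact Iff.rfl
      · show g • f.1.2.1 = g • u ↔ f.1.2.1 = u
        exact (MulAction.injective g).eq_iff
      · show g • f.1.2.2 = g • u ↔ f.1.2.2 = u
        exact (MulAction.injective g).eq_iff
      · show g • e.1.2.1 = g • v ↔ e.1.2.1 = v
        exact (MulAction.injective g).eq_iff
      · exact Iff.rfl
      · show g • e = g • f ↔ e = f
        exact (MulAction.injective g).eq_iff
      · show g • e.1.2.2 = g • v ↔ e.1.2.2 = v
        exact (MulAction.injective g).eq_iff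
      · show g • f = g • e ↔ f = e
        exact (MulAction.injective g).eq_iff
      · exact Iff.rfl
    · intro g u
      rcases u with u | e | e
      · rfl
      · rfl
      · rfl
    · intro σ hσκ hσ
      have f1 : ∀ v : V, ∃ v' : V, σ (Sum.inl v) = Sum.inl v' := by
        intro v
        have h6 := congrArg Fin.val (hσκ (Sum.inl v))
        rcases h : σ (Sum.inl v) with v' | e | e
        · exact ⟨v', rfl⟩
        · rw [h, kap_1, kap_v] at h6; omega
        · rw [h, kap_2, kap_v] at h6; omega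
      have f2 : ∀ e : Ar arc, ∃ e' : Ar arc, σ (Sum.inr (Sum.inl e)) = Sum.inr (Sum.inl e') := by
        intro v
        have h6 := congrArg Fin.val (hσκ (Sum.inr (Sum.inl v)))
        rcases h : σ (Sum.inr (Sum.inl v)) with v' | e | e
        · rw [h, kap_1, kap_v] at h6; omega
        · exact ⟨e, rfl⟩
        · rw [h, kap_2, kap_1] at h6; omega
      have f3 : ∀ e : Ar arc, ∃ e' : Ar arc, σ (Sum.inr (Sum.inr e)) = Sum.inr (Sum.inr e') := by
        intro v
        have h6 := congrArg Fin.val (hσκ (Sum.inr (Sum.inr v)))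
        rcases h : σ (Sum.inr (Sum.inr v)) with v' | e | e
        · rw [h, kap_v, kap_2] at h6; omega
        · rw [h, kap_1, kap_2] at h6; omega
        · exact ⟨e, rfl⟩
      choose τ hτ using f1
      choose α hα using f2
      choose β hβ using f3
      have hαβ : ∀ e, α e = β e := by
        intro e
        have h6 : (dg arc).Adj (Sum.inr (Sum.inl e)) (Sum.inr (Sum.inr e)) := rfl
        have h7 := (hσ _ _).2 h6
        rw [hα, hβ] at h7
        exact h7
      have hsrc : ∀ e, (α e).1.2.1 = τ e.1.2.1 := by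
        intro e
        have h6 : (dg arc).Adj (Sum.inl e.1.2.1) (Sum.inr (Sum.inl e)) := rfl
        have h7 := (hσ _ _).2 h6
        rw [hτ, hα] at h7
        exact h7
      have htgt : ∀ e, (α e).1.2.2 = τ e.1.2.2 := by
        intro e
        have h6 : (dg arc).Adj (Sum.inl e.1.2.2) (Sum.inr (Sum.inr e)) := rfl
        have h7 := (hσ _ _).2 h6
        rw [hτ, hβ] at h7
        rw [hαβ]
        exact h7
      have hcol : ∀ e, (α e).1.1 = e.1.1 := by
        intro e
        have h6 := congrArg Fin.val (hσκ (Sum.inr (Sum.inr e)))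
        rw [hβ, kap_2, kap_2] at h6
        rw [hαβ]
        exact idx.injective (Fin.ext (by omega))
      have hτinj : Function.Injective τ := by
        intro v w hvw
        have h6 : σ (Sum.inl v) = σ (Sum.inl w) := by rw [hτ, hτ, hvw]
        exact Sum.inl.inj (σ.injective h6)
      have hαinj : Function.Injective α := by
        intro v w hvw
        have h6 : σ (Sum.inr (Sum.inl v)) = σ (Sum.inr (Sum.inl w)) := by rw [hα, hα, hvw]
        exact Sum.inl.inj (Sum.inr.inj (σ.injective h6))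
      have hαsurj : Function.Surjective α := (Finite.injective_iff_bijective.1 hαinj).2
      let τ' : Equiv.Perm V := Equiv.ofBijective τ (Finite.injective_iff_bijective.1 hτinj)
      have hτ' : ∀ v, τ' v = τ v := fun v => rfl
      have harc : ∀ (c : C) (v w : V), arc c (τ v) (τ w) ↔ arc c v w := by
        intro c v w
        constructor
        · intro h
          obtain ⟨e, he⟩ := hαsurj ⟨(c, τ v, τ w), h⟩
          have e1 := hcol e
          have e2 := hsrc e
          have e3 := htgt e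
          rw [he] at e1 e2 e3
          have e4 : v = e.1.2.1 := hτinj e2
          have e5 : w = e.1.2.2 := hτinj e3
          have e6 : c = e.1.1 := e1
          rw [e4, e5, e6]
          exact e.2
        · intro h
          have h6 := (α ⟨(c, v, w), h⟩).2
          rw [hcol, hsrc, htgt] at h6
          exact h6
      obtain ⟨g, hg⟩ := ((h3 _ _).1 ((harc c0 v0 v0).2 h00)).2
      have h7 : (MulAction.toPerm g : Equiv.Perm V)⁻¹ * τ' = 1 := by
        apply h5
        · intro c v w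
          have e1 : ∀ x, ((MulAction.toPerm g : Equiv.Perm V)⁻¹ * τ') x = g⁻¹ • τ x := by
            intro x; rfl
          rw [e1, e1, h1, harc]
        · show g⁻¹ • τ v0 = v0
          rw [← hg, inv_smul_smul]
      have h8 : ∀ v, τ v = g • v := by
        intro v
        have h9 : τ' = (MulAction.toPerm g : Equiv.Perm V) := by
          have := inv_mul_eq_one.1 h7
          exact this.symm
        rw [← hτ', h9]
        rfl
      refine ⟨g, ?_⟩
      have hA : ∀ e, g • e = α e := by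
        intro e
        apply Subtype.ext
        apply Prod.ext
        · exact (hcol e).symm
        · apply Prod.ext
          · show g • e.1.2.1 = _
            rw [hsrc, h8]
          · show g • e.1.2.2 = _
            rw [htgt, h8]
      apply Equiv.ext
      rintro (v | e | e)
      · rw [hτ, h8]; rfl
      · rw [hα, ← hA]; rfl
      · rw [hβ, ← hαβ, ← hA]; rfl
  · have hfin : (Set.range (cov (kap arc idx))).Finite := Set.finite_range _
    have h6 := (Nat.card_mono hfin (cov_surj (kap arc idx))).trans (Finite.card_range_le _)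
    refine h6.trans ?_
    rw [Nat.card_sum, Nat.card_sum, Nat.card_sum, Nat.card_sum, Nat.card_sum, Nat.card_sum,
      Nat.card_sum, Nat.card_fin]
    have h7 : 0 < Nat.card V := Nat.card_pos_iff.2 ⟨⟨v0⟩, inferInstance⟩
    have h8 : 0 < Nat.card (Ar arc) := Nat.card_pos_iff.2 ⟨⟨e0⟩, inferInstance⟩
    omega

end digraph

end Pool.Agent.R715.Enc

namespace Pool.Agent.R191.EO

open Pool.Agent.R715.Enc in
/-- Part A -/
theorem encode : EncodeStatement := by
  intro G _ _ r h
  obtain ⟨V, C, _, _, _, arc, v0, c0, h1, h2, h3, h4, h5, h6⟩ := h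
  let C' := {c : C // ∃ v w, arc c v w}
  let arc' : C' → V → V → Prop := fun c v w => arc c.1 v w
  have h00 : arc c0 v0 v0 := (h3 v0 v0).2 ⟨rfl, 1, one_smul G v0⟩
  obtain ⟨T, hT, X, hX, hcard⟩ := enc_main (arc := arc') (G := G) v0 ⟨c0, v0, v0, h00⟩
    (fun g c v w => h1 g c.1 v w) h2 (fun v w => h3 v w)
    (fun v => Relation.ReflTransGen.mono (r := fun a b => ∃ c, arc c a b ∨ arc c b a)
      (p := fun a b => ∃ c, arc' c a b ∨ arc' c b a) (by
      rintro a b ⟨c, hc | hc⟩
      · exact ⟨⟨c, a, b, hc⟩, Or.inl hc⟩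
      · exact ⟨⟨c, b, a, hc⟩, Or.inr hc⟩) v0 v (h4 v))
    (fun σ hσ h0 => h5 σ (by
      intro c v w
      constructor
      · intro h
        exact (hσ ⟨c, _, _, h⟩ v w).1 h
      · intro h
        exact (hσ ⟨c, _, _, h⟩ v w).2 h) h0)
    (fun c => c.2)
  refine ⟨T, hT, X, hX, ?_⟩
  have h7 : Nat.card C' ≤ Nat.card C := Nat.card_le_card_of_injective _ Subtype.val_injective
  have h8 : Nat.card (Ar arc') ≤ Nat.card {p : C × V × V // arc p.1 p.2.1 p.2.2} := by
    refine Nat.card_le_card_of_injective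
      (fun e : Ar arc' => (⟨(e.1.1.1, e.1.2.1, e.1.2.2), e.2⟩ :
        {p : C × V × V // arc p.1 p.2.1 p.2.2})) ?_
    intro e f hef
    have h9 := congrArg Subtype.val hef
    simp only [Prod.mk.injEq] at h9
    apply Subtype.ext
    apply Prod.ext
    · exact Subtype.ext h9.1
    · exact Prod.ext h9.2.1 h9.2.2
  have h9 : (Nat.card X.edgeSet : ℝ) ≤
      10 * ((Nat.card V : ℝ) + Nat.card C' + Nat.card (Ar arc')) := by exact_mod_cast hcard
  have h10 : (Nat.card C' : ℝ) ≤ Nat.card C := by exact_mod_cast h7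
  have h11 : (Nat.card (Ar arc') : ℝ) ≤
    Nat.card {p : C × V × V // arc p.1 p.2.1 p.2.2} := by exact_mod_cast h8
  nlinarith

end Pool.Agent.R191.EO
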