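import Pool.Agent.R191.EO.Cor

/-!
# Final assembly (MP_585e73_co): from the four statements to the theorem.
-/

namespace Pool.Agent.R191.EO

open Subgroup

/-- A finite group is generated by its Sylow subgroups (one for each prime divisor). -/
theorem iSup_sylow (G : Type) [Group G] [Finite G]
    (S : ∀ p : (Nat.card G).primeFactors, Sylow (p : ℕ) G) :
    (⨆ p, (S p).toSubgroup) = ⊤ := by
  set K : Subgroup G := ⨆ p, (S p).toSubgroup with hK
  have hcard : Nat.card G ∣ Nat.card K := by
    have hG0 : Nat.card G ≠ 0 := Nat.card_pos.ne'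
    rw [← Nat.factorization_prime_le_iff_dvd hG0 Nat.card_pos.ne']
    intro p hp
    by_cases hpd : p ∣ Nat.card G
    · haveI : Fact p.Prime := ⟨hp⟩
      have hmem : p ∈ (Nat.card G).primeFactors := Nat.mem_primeFactors.2 ⟨hp, hpd, hG0⟩
      have h1 := (S ⟨p, hmem⟩).card_eq_multiplicity
      have h2 : Nat.card (S ⟨p, hmem⟩).toSubgroup ∣ Nat.card K :=
        Subgroup.card_dvd_of_le (le_iSup (fun p => (S p).toSubgroup) ⟨p, hmem⟩)
      have h3 : p ^ (Nat.card G).factorization p ∣ Nat.card K := by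
        have e : Nat.card (S ⟨p, hmem⟩).toSubgroup = p ^ (Nat.card G).factorization p := h1
        rw [← e]
        exact h2
      exact (hp.pow_dvd_iff_le_factorization Nat.card_pos.ne').1 h3
    · rw [Nat.factorization_eq_zero_of_not_dvd hpd]
      exact Nat.zero_le _
  exact Subgroup.eq_top_of_le_card _ (Nat.le_of_dvd Nat.card_pos hcard)

theorem main_of (hG : GlueStatement) (hE : EncodeStatement) (hS : SolvableStatement) :
    ∃ c : ℕ, ∀ (G : Type) [Group G] [Finite G] (k : ℕ) (H : Fin k → Subgroup G),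
      (∀ i, Group.IsSolvable (H i)) → (⨆ i, H i) = ⊤ →
      ∃ (V : Type) (_ : Finite V) (X : SimpleGraph V),
        Nonempty ((X ≃g X) ≃* G) ∧ Nat.card X.edgeSet ≤ c * (k + 1) * Nat.card G := by
  obtain ⟨cS, hS⟩ := hS
  obtain ⟨c, hc⟩ := exists_nat_ge (10 * (5 + max cS 0))
  refine ⟨c, ?_⟩
  intro G _ _ k H hH htop
  have h1 := subgroups hG (G := G) (ι := Fin k) (J := Empty) (fun j => j.elim) H (fun _ => cS)
    (fun i => hS (H i) (hH i)) (by
      rw [eq_top_iff, ← htop, iSup_le_iff]
      intro i x hx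
      exact Subgroup.subset_closure (Or.inr (Set.mem_iUnion.2 ⟨i, hx⟩)))
  have h2 : HasRep G ((5 + max cS 0) * (k + 1)) := by
    refine h1.mono ?_
    simp only [Fintype.card_eq_zero, Nat.cast_zero, Fintype.card_fin, Finset.sum_const,
      Finset.card_univ, nsmul_eq_mul]
    have a1 : cS ≤ max cS 0 := le_max_left _ _
    have a2 : 0 ≤ max cS 0 := le_max_right _ _
    have a3 : (0 : ℝ) ≤ k := Nat.cast_nonneg k
    nlinarith [mul_le_mul_of_nonneg_left a1 a3]
  obtain ⟨V, fV, X, hX, hcard⟩ := hE G _ h2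
  refine ⟨V, fV, X, hX, ?_⟩
  have : (Nat.card X.edgeSet : ℝ) ≤ ((c * (k + 1) * Nat.card G : ℕ) : ℝ) := by
    refine hcard.trans ?_
    push_cast
    have b1 : (0 : ℝ) ≤ (k : ℝ) + 1 := by positivity
    have b2 : (0 : ℝ) ≤ Nat.card G := by positivity
    calc 10 * ((5 + max cS 0) * ((k : ℝ) + 1)) * Nat.card G
        = (10 * (5 + max cS 0)) * ((k : ℝ) + 1) * Nat.card G := by ring
      _ ≤ c * ((k : ℝ) + 1) * Nat.card G := by gcongr
  exact_mod_cast this

/-- The full collection of consequences. -/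
theorem main_all (hG : GlueStatement) (hE : EncodeStatement) (hS : SolvableStatement) :
    ∃ c : ℕ,
      (∀ (G : Type) [Group G] [Finite G] (k : ℕ) (H : Fin k → Subgroup G),
        (∀ i, Group.IsSolvable (H i)) → (⨆ i, H i) = ⊤ →
        ∃ (V : Type) (_ : Finite V) (X : SimpleGraph V),
          Nonempty ((X ≃g X) ≃* G) ∧ Nat.card X.edgeSet ≤ c * (k + 1) * Nat.card G) ∧
      (∀ (G : Type) [Group G] [Finite G], Group.IsSolvable G →
        ∃ (V : Type) (_ : Finite V) (X : SimpleGraph V),
          Nonempty ((X ≃g X) ≃* G) ∧ Nat.card X.edgeSet ≤ c * Nat.card G) ∧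
      (∀ (G : Type) [Group G] [Finite G],
        ∃ (V : Type) (_ : Finite V) (X : SimpleGraph V),
          Nonempty ((X ≃g X) ≃* G) ∧
          Nat.card X.edgeSet ≤ c * ((Nat.card G).primeFactors.card + 1) * Nat.card G) := by
  obtain ⟨c, hc⟩ := main_of hG hE hS
  refine ⟨2 * c, ?_, ?_, ?_⟩
  · intro G _ _ k H hH htop
    obtain ⟨V, fV, X, hX, hcard⟩ := hc G k H hH htop
    refine ⟨V, fV, X, hX, hcard.trans ?_⟩
    gcongr
    omega
  · intro G _ _ hGs
    obtain ⟨V, fV, X, hX, hcard⟩ := hc G 1 (fun _ => ⊤)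
      (fun _ => by
        haveI := hGs
        infer_instance) (by simp)
    refine ⟨V, fV, X, hX, hcard.trans ?_⟩
    apply le_of_eq
    ring
  · intro G _ _
    classical
    have hS' : ∀ p : (Nat.card G).primeFactors, Nonempty (Sylow (p : ℕ) G) := fun p =>
      inferInstance
    let S : ∀ p : (Nat.card G).primeFactors, Sylow (p : ℕ) G := fun p => (hS' p).some
    let n := (Nat.card G).primeFactors.card
    let e : Fin n ≃ (Nat.card G).primeFactors := ((Nat.card G).primeFactors.equivFin).symm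
    have htop : (⨆ i : Fin n, (S (e i)).toSubgroup) = ⊤ := by
      rw [← iSup_sylow G S]
      exact e.iSup_comp (g := fun p => (S p).toSubgroup)
    obtain ⟨V, fV, X, hX, hcard⟩ := hc G n (fun i => (S (e i)).toSubgroup)
      (fun i => by
        haveI : Fact ((e i : ℕ)).Prime := ⟨Nat.prime_of_mem_primeFactors (e i).2⟩
        have hp : IsPGroup (e i : ℕ) (S (e i)).toSubgroup := (S (e i)).isPGroup'
        haveI := hp.isNilpotent
        infer_instance) htop
    refine ⟨V, fV, X, hX, hcard.trans ?_⟩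
    gcongr
    omega

end Pool.Agent.R191.EO
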