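import Pool.Agent.R191.EO.Cor
import Pool.Agent.R191.EO.DefsF

/-!
# Final assembly with simple sections (MP_585e73_co)
-/

namespace Pool.Agent.R191.EO

open Subgroup

theorem main_sect (hG : GlueStatement) (hE : EncodeStatement) (hF : SimpleGenStatement) :
    ∀ D : ℕ, ∃ c : ℕ, ∀ (G : Type) [Group G] [Finite G] (k : ℕ) (H : Fin k → Subgroup G),
      (∀ i, SectGen D (H i)) → (⨆ i, H i) = ⊤ →
      ∃ (V : Type) (_ : Finite V) (X : SimpleGraph V),
        Nonempty ((X ≃g X) ≃* G) ∧ Nat.card X.edgeSet ≤ c * (k + 1) * Nat.card G := by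
  intro D
  obtain ⟨cS, hS⟩ := hF D
  obtain ⟨c, hc⟩ := exists_nat_ge (10 * (5 + max cS 0))
  refine ⟨c, ?_⟩
  intro G _ _ k H hH htop
  have h1 := subgroups hG (G := G) (ι := Fin k) (J := Empty) (fun j => j.elim) H (fun _ => cS)
    (fun i => hS (H i) (hH i)) (by
      rw [eq_top_iff, ← htop, iSup_le_iff]
      intro i x hx
      exact Subgroup.subset_closure (Or.inr (Set.mem_iUnion.2 ⟨i, hx⟩)))
  have h2 : HasRep G ((5 + max cS 0) * (k + 1)) := by
    refine h1.mono ?_
    simp only [Fintype.card_eq_zero, Nat.cast_zero, Fintype.card_fin, Finset.sum_const,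
      Finset.card_univ, nsmul_eq_mul]
    have a1 : cS ≤ max cS 0 := le_max_left _ _
    have a2 : 0 ≤ max cS 0 := le_max_right _ _
    have a3 : (0 : ℝ) ≤ k := Nat.cast_nonneg k
    nlinarith [mul_le_mul_of_nonneg_left a1 a3]
  obtain ⟨V, fV, X, hX, hcard⟩ := hE G _ h2
  refine ⟨V, fV, X, hX, ?_⟩
  have : (Nat.card X.edgeSet : ℝ) ≤ ((c * (k + 1) * Nat.card G : ℕ) : ℝ) := by
    refine hcard.trans ?_
    push_cast
    have b1 : (0 : ℝ) ≤ (k : ℝ) + 1 := by positivity
    have b2 : (0 : ℝ) ≤ Nat.card G := by positivity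
    calc 10 * ((5 + max cS 0) * ((k : ℝ) + 1)) * Nat.card G
        = (10 * (5 + max cS 0)) * ((k : ℝ) + 1) * Nat.card G := by ring
      _ ≤ c * ((k : ℝ) + 1) * Nat.card G := by gcongr
  exact_mod_cast this

/-- solvable groups have cyclic simple sections -/
theorem sectGen_of_solvable {G : Type} [Group G] [Finite G] (h : Group.IsSolvable G) {D : ℕ}
    (hD : 1 ≤ D) : SectGen D G := by
  intro H M _ hs
  haveI := h
  have hsol : Group.IsSolvable (H ⧸ M) := inferInstance
  have hcomm := IsSimpleGroup.comm_iff_isSolvable.2 hsol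
  letI : CommGroup (H ⧸ M) := { (inferInstance : Group (H ⧸ M)) with mul_comm := hcomm }
  haveI : IsSimpleGroup (H ⧸ M) := hs
  haveI hcyc : IsCyclic (H ⧸ M) := IsSimpleGroup.isCyclic
  obtain ⟨g, hg⟩ := hcyc.exists_generator
  refine ⟨fun _ => g, ?_⟩
  rw [eq_top_iff]
  intro x _
  obtain ⟨k, hk⟩ := hg x
  rw [← hk]
  have hmem : g ∈ Subgroup.closure (Set.range fun _ : Fin D => g) :=
    Subgroup.subset_closure (Set.mem_range.2 ⟨(⟨0, hD⟩ : Fin D), rfl⟩)
  exact Subgroup.zpow_mem _ hmem k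

end Pool.Agent.R191.EO
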