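import Pool.Agent.R191.EO.Defs

/-! Part B of MP_585e73_co: the gluing lemma. -/

set_option autoImplicit false

namespace Pool.Agent.R191.EO.Glue

open Pool.Agent.R191.EO

/-- bundled representation -/
structure Rp (Q : Type) [Group Q] (r : ℝ) where
  V : Type
  C : Type
  fV : Finite V
  fC : Finite C
  act : MulAction Q V
  arc : C → V → V → Prop
  v0 : V
  inv : ∀ (g : Q) (c : C) (v w : V), arc c (g • v) (g • w) ↔ arc c v w
  free : ∀ g : Q, g • v0 = v0 → g = 1
  conn : ∀ v : V, Relation.ReflTransGen (fun a b => ∃ c, arc c a b ∨ arc c b a) v0 v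
  rigid : ∀ σ : Equiv.Perm V, (∀ (c : C) (v w : V), arc c (σ v) (σ w) ↔ arc c v w) →
    σ v0 = v0 → σ = 1
  cost : (Nat.card V : ℝ) + Nat.card C + Nat.card {p : C × V × V // arc p.1 p.2.1 p.2.2}
      ≤ r * Nat.card Q

attribute [instance] Rp.fV Rp.fC Rp.act

theorem exists_rp {Q : Type} [Group Q] {r : ℝ} (h : HasRep Q r) : Nonempty (Rp Q r) := by
  obtain ⟨V, C, fV, fC, act, arc, v0, c0, h1, h2, _, h4, h5, h6⟩ := h
  exact ⟨⟨V, C, fV, fC, act, arc, v0, h1, h2, h4, h5, h6⟩⟩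

/-! ### The twisted product `G ×_H V` -/

section tw

variable {G Q : Type} [Group G] [Group Q] (H : Subgroup G) (φ : H →* Q)

/-- `(x, φ h • w) ~ (x h, w)` -/
def twS (V : Type) [MulAction Q V] : Setoid (G × V) where
  r p q := ∃ h : H, q.1 = p.1 * h ∧ p.2 = φ h • q.2
  iseqv :=
    { refl := fun p => ⟨1, by simp, by simp⟩
      symm := by
        rintro p q ⟨h, h1, h2⟩
        refine ⟨h⁻¹, ?_, ?_⟩
        · rw [h1]; simp
        · rw [h2, smul_smul, map_inv, inv_mul_cancel, one_smul]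
      trans := by
        rintro p q s ⟨h, h1, h2⟩ ⟨h', h1', h2'⟩
        refine ⟨h * h', ?_, ?_⟩
        · rw [h1', h1, Subgroup.coe_mul, mul_assoc]
        · rw [h2, h2', smul_smul, map_mul] }

/-- the twisted product -/
def Tw (V : Type) [MulAction Q V] : Type := Quotient (twS H φ V)

variable {V : Type} [MulAction Q V]

/-- the class of `(x, v)` -/
def tm (x : G) (v : V) : Tw H φ V := Quotient.mk (twS H φ V) (x, v)

variable {H φ}

theorem tm_eq {x y : G} {v w : V} :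
    tm H φ x v = tm H φ y w ↔ ∃ h : H, y = x * h ∧ v = φ h • w := by
  constructor
  · intro h
    exact Quotient.exact h
  · intro h
    exact Quotient.sound h

theorem tm_mul (x : G) (h : H) (w : V) : tm H φ (x * h) w = tm H φ x (φ h • w) :=
  (tm_eq.2 ⟨h, rfl, rfl⟩).symm

theorem tm_inj {x : G} {a b : V} : tm H φ x a = tm H φ x b ↔ a = b := by
  rw [tm_eq]
  constructor
  · rintro ⟨h, h1, h2⟩
    have h3 : (h : G) = 1 := by
      have := congrArg (fun z => x⁻¹ * z) h1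
      simpa using this.symm
    have h4 : h = 1 := Subtype.ext h3
    rw [h2, h4, map_one, one_smul]
  · rintro rfl
    exact ⟨1, by simp, by simp⟩

theorem tm_surj (t : Tw H φ V) : ∃ (x : G) (v : V), t = tm H φ x v := by
  induction t using Quotient.inductionOn with
  | _ p => exact ⟨p.1, p.2, rfl⟩

/-- the action -/
instance : MulAction G (Tw H φ V) where
  smul g := Quotient.map (fun p => (g * p.1, p.2)) (by
    rintro p q ⟨h, h1, h2⟩
    exact ⟨h, by show g * q.1 = g * p.1 * h; rw [h1, mul_assoc], h2⟩)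
  one_smul t := by
    obtain ⟨x, v, rfl⟩ := tm_surj t
    show tm H φ (1 * x) v = tm H φ x v
    rw [one_mul]
  mul_smul g g' t := by
    obtain ⟨x, v, rfl⟩ := tm_surj t
    show tm H φ (g * g' * x) v = tm H φ (g * (g' * x)) v
    rw [mul_assoc]

theorem smul_tm (g x : G) (v : V) : g • tm H φ x v = tm H φ (g * x) v := rfl

instance [Finite G] [Finite V] : Finite (Tw H φ V) := Quotient.finite _

theorem tm_out (x : G) (a : V) :
    ∃ h : H, (QuotientGroup.mk x : G ⧸ H).out = x * h ∧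
      tm H φ x a = tm H φ (QuotientGroup.mk x : G ⧸ H).out (φ h⁻¹ • a) := by
  obtain ⟨h, hh⟩ := QuotientGroup.mk_out_eq_mul H x
  refine ⟨h, hh, ?_⟩
  rw [hh, tm_mul, smul_smul, ← map_mul, mul_inv_cancel, map_one, one_smul]

theorem card_tw [Finite G] [Finite V] :
    Nat.card (Tw H φ V) ≤ Nat.card (G ⧸ H) * Nat.card V := by
  rw [← Nat.card_prod]
  refine Nat.card_le_card_of_surjective
    (fun p : (G ⧸ H) × V => tm H φ p.1.out p.2) ?_
  intro t
  obtain ⟨x, a, rfl⟩ := tm_surj t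
  obtain ⟨h, -, h2⟩ := tm_out (φ := φ) x a
  exact ⟨(QuotientGroup.mk x, φ h⁻¹ • a), h2.symm⟩

end tw

/-! ### The glued structure -/

section glue

variable {G : Type} [Group G] {ι J : Type} {H : ι → Subgroup G} {Q : ι → Type}
  [∀ i, Group (Q i)] {r : ι → ℝ}

variable (φ : ∀ i, H i →* Q i) (R : ∀ i, Rp (Q i) (r i)) (s : J → G)

/-- the vertices -/
abbrev Vt : Type := G ⊕ (Σ i, Tw (H i) (φ i) (R i).V)

/-- the colours -/
abbrev Ct (R : ∀ i, Rp (Q i) (r i)) (J : Type) : Type := Unit ⊕ (J ⊕ (ι ⊕ (Σ i, (R i).C)))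

/-- the vertex `[x, v]_i` -/
def vt (i : ι) (x : G) (v : (R i).V) : Vt φ R := Sum.inr ⟨i, tm (H i) (φ i) x v⟩

/-- the vertex `x` -/
def vg (x : G) : Vt φ R := Sum.inl x

/-- the arcs -/
def arcT : Ct R J → Vt φ R → Vt φ R → Prop
  | Sum.inl _, v, w => v = w ∧ ∃ x : G, v = vg φ R x
  | Sum.inr (Sum.inl j), v, w => ∃ x : G, v = vg φ R x ∧ w = vg φ R (x * s j)
  | Sum.inr (Sum.inr (Sum.inl i)), v, w => ∃ x : G, v = vg φ R x ∧ w = vt φ R i x (R i).v0
  | Sum.inr (Sum.inr (Sum.inr ⟨i, c⟩)), v, w => ∃ (x : G) (a b : (R i).V),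
      v = vt φ R i x a ∧ w = vt φ R i x b ∧ (R i).arc c a b

variable {φ R s}

theorem vg_inj {x y : G} (h : vg φ R x = vg φ R y) : x = y := Sum.inl.inj h

theorem vt_inj' {i : ι} {x y : G} {a b : (R i).V} (h : vt φ R i x a = vt φ R i y b) :
    tm (H i) (φ i) x a = tm (H i) (φ i) y b := by
  have h1 : (⟨i, tm (H i) (φ i) x a⟩ : Σ i, Tw (H i) (φ i) (R i).V) =
      ⟨i, tm (H i) (φ i) y b⟩ := Sum.inr.inj h
  exact eq_of_heq (Sigma.mk.inj_iff.1 h1).2

theorem vt_inj {i : ι} {x : G} {a b : (R i).V} (h : vt φ R i x a = vt φ R i x b) : a = b :=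
  tm_inj.1 (vt_inj' h)

theorem vt_mul (i : ι) (x : G) (h : H i) (w : (R i).V) :
    vt φ R i (x * h) w = vt φ R i x (φ i h • w) := by
  unfold vt
  rw [tm_mul]

theorem smul_vg (g x : G) : g • vg φ R x = vg φ R (g * x) := rfl

theorem smul_vt (g : G) (i : ι) (x : G) (a : (R i).V) :
    g • vt φ R i x a = vt φ R i (g * x) a := rfl

theorem cases_V (v : Vt φ R) : (∃ x, v = vg φ R x) ∨ ∃ i x a, v = vt φ R i x a := by
  rcases v with x | ⟨i, t⟩
  · exact Or.inl ⟨x, rfl⟩
  · obtain ⟨x, a, rfl⟩ := tm_surj t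
    exact Or.inr ⟨i, x, a, rfl⟩

/-- the colour of the inner arcs -/
abbrev inn (R : ∀ i, Rp (Q i) (r i)) (J : Type) (i : ι) (c : (R i).C) : Ct R J :=
  Sum.inr (Sum.inr (Sum.inr ⟨i, c⟩))

abbrev lnk (R : ∀ i, Rp (Q i) (r i)) (J : Type) (i : ι) : Ct R J :=
  Sum.inr (Sum.inr (Sum.inl i))

theorem inn_left {i : ι} {c : (R i).C} {x : G} {a : (R i).V} {w : Vt φ R}
    (h : arcT φ R s (inn R J i c) (vt φ R i x a) w) :
    ∃ b, w = vt φ R i x b ∧ (R i).arc c a b := by
  obtain ⟨y, a', b', h1, rfl, h3⟩ := h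
  obtain ⟨k, hk1, hk2⟩ := tm_eq.1 (vt_inj' h1)
  refine ⟨φ i k • b', ?_, ?_⟩
  · rw [hk1, vt_mul]
  · rw [hk2]; exact ((R i).inv _ _ _ _).2 h3

theorem inn_right {i : ι} {c : (R i).C} {x : G} {b : (R i).V} {v : Vt φ R}
    (h : arcT φ R s (inn R J i c) v (vt φ R i x b)) :
    ∃ a, v = vt φ R i x a ∧ (R i).arc c a b := by
  obtain ⟨y, a', b', rfl, h1, h3⟩ := h
  obtain ⟨k, hk1, hk2⟩ := tm_eq.1 (vt_inj' h1)
  refine ⟨φ i k • a', ?_, ?_⟩
  · rw [hk1, vt_mul]
  · rw [hk2]; exact ((R i).inv _ _ _ _).2 h3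

theorem inn_iff {i : ι} {c : (R i).C} {x : G} {a b : (R i).V} :
    arcT φ R s (inn R J i c) (vt φ R i x a) (vt φ R i x b) ↔ (R i).arc c a b := by
  constructor
  · intro h
    obtain ⟨b', hb', h3⟩ := inn_left h
    rw [vt_inj hb']
    exact h3
  · intro h
    exact ⟨x, a, b, rfl, rfl, h⟩

theorem arc_smul (g : G) (c : Ct R J) (v w : Vt φ R) (h : arcT φ R s c v w) :
    arcT φ R s c (g • v) (g • w) := by
  rcases c with _ | j | i | ⟨i, c⟩
  · obtain ⟨rfl, x, rfl⟩ := h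
    exact ⟨rfl, g * x, rfl⟩
  · obtain ⟨x, rfl, rfl⟩ := h
    exact ⟨g * x, rfl, by rw [smul_vg, mul_assoc]⟩
  · obtain ⟨x, rfl, rfl⟩ := h
    exact ⟨g * x, rfl, rfl⟩
  · obtain ⟨x, a, b, rfl, rfl, h3⟩ := h
    exact ⟨g * x, a, b, rfl, rfl, h3⟩

theorem arc_inv (g : G) (c : Ct R J) (v w : Vt φ R) :
    arcT φ R s c (g • v) (g • w) ↔ arcT φ R s c v w := by
  constructor
  · intro h
    have := arc_smul g⁻¹ c _ _ h
    rwa [inv_smul_smul, inv_smul_smul] at this
  · exact arc_smul g c v w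

/-- adjacency -/
def adjT (φ : ∀ i, H i →* Q i) (R : ∀ i, Rp (Q i) (r i)) (s : J → G) (a b : Vt φ R) : Prop :=
  ∃ c, arcT φ R s c a b ∨ arcT φ R s c b a

theorem adjT_symm {a b : Vt φ R} (h : adjT φ R s a b) : adjT φ R s b a := by
  obtain ⟨c, h⟩ := h
  exact ⟨c, h.symm⟩

theorem adjT_smul (g : G) {a b : Vt φ R} (h : adjT φ R s a b) :
    adjT φ R s (g • a) (g • b) := by
  obtain ⟨c, h | h⟩ := h
  · exact ⟨c, Or.inl (arc_smul g c _ _ h)⟩
  · exact ⟨c, Or.inr (arc_smul g c _ _ h)⟩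

theorem reach_symm {a b : Vt φ R} (h : Relation.ReflTransGen (adjT φ R s) a b) :
    Relation.ReflTransGen (adjT φ R s) b a := by
  induction h with
  | refl => exact Relation.ReflTransGen.refl
  | tail _ h2 ih => exact Relation.ReflTransGen.head (adjT_symm h2) ih

theorem reach_smul (g : G) {a b : Vt φ R} (h : Relation.ReflTransGen (adjT φ R s) a b) :
    Relation.ReflTransGen (adjT φ R s) (g • a) (g • b) := by
  induction h with
  | refl => exact Relation.ReflTransGen.refl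
  | tail _ h2 ih => exact ih.tail (adjT_smul g h2)

theorem reach_fibre (i : ι) (x : G) (a : (R i).V) :
    Relation.ReflTransGen (adjT φ R s) (vt φ R i x (R i).v0) (vt φ R i x a) := by
  induction (R i).conn a with
  | refl => exact Relation.ReflTransGen.refl
  | tail _ h2 ih =>
    refine ih.tail ?_
    obtain ⟨c, h | h⟩ := h2
    · exact ⟨inn R J i c, Or.inl (inn_iff.2 h)⟩
    · exact ⟨inn R J i c, Or.inr (inn_iff.2 h)⟩

theorem reach_vt (i : ι) (x : G) (a : (R i).V) :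
    Relation.ReflTransGen (adjT φ R s) (vg φ R x) (vt φ R i x a) :=
  Relation.ReflTransGen.head ⟨lnk R J i, Or.inl ⟨x, rfl, rfl⟩⟩ (reach_fibre i x a)

theorem conn (hgen : Subgroup.closure (Set.range s ∪ ⋃ i, (H i : Set G)) = ⊤) (v : Vt φ R) :
    Relation.ReflTransGen (adjT φ R s) (vg φ R 1) v := by
  let B : Subgroup G :=
    { carrier := {g | Relation.ReflTransGen (adjT φ R s) (vg φ R 1) (vg φ R g)}
      one_mem' := Relation.ReflTransGen.refl
      mul_mem' := by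
        intro a b ha hb
        have h1 := reach_smul a hb
        rw [smul_vg, smul_vg, mul_one] at h1
        exact Relation.ReflTransGen.trans ha h1
      inv_mem' := by
        intro a ha
        have h1 := reach_smul a⁻¹ ha
        rw [smul_vg, smul_vg, mul_one, inv_mul_cancel] at h1
        exact reach_symm h1 }
  have hB : B = ⊤ := by
    rw [eq_top_iff, ← hgen, Subgroup.closure_le]
    rintro g (⟨j, rfl⟩ | hg)
    · show Relation.ReflTransGen (adjT φ R s) (vg φ R 1) (vg φ R (s j))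
      refine Relation.ReflTransGen.single ⟨Sum.inr (Sum.inl j), Or.inl ⟨1, rfl, ?_⟩⟩
      rw [one_mul]
    · obtain ⟨i, hi⟩ := Set.mem_iUnion.1 hg
      show Relation.ReflTransGen (adjT φ R s) (vg φ R 1) (vg φ R g)
      have h1 := reach_vt (s := s) (φ := φ) (R := R) i (1 : G) (φ i ⟨g, hi⟩ • (R i).v0)
      rw [← vt_mul i 1 ⟨g, hi⟩, one_mul] at h1
      have h2 := reach_vt (s := s) (φ := φ) (R := R) i g (R i).v0
      exact h1.trans (reach_symm h2)
  have hall : ∀ x : G, Relation.ReflTransGen (adjT φ R s) (vg φ R 1) (vg φ R x) := by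
    intro x
    have : x ∈ B := by rw [hB]; trivial
    exact this
  rcases cases_V v with ⟨x, rfl⟩ | ⟨i, x, a, rfl⟩
  · exact hall x
  · exact (hall x).trans (reach_vt i x a)

/-! ### Rigidity -/

/-- arc preserving permutations -/
def Pres (φ : ∀ i, H i →* Q i) (R : ∀ i, Rp (Q i) (r i)) (s : J → G)
    (σ : Equiv.Perm (Vt φ R)) : Prop :=
  ∀ (c : Ct R J) (v w : Vt φ R), arcT φ R s c (σ v) (σ w) ↔ arcT φ R s c v w

theorem fibre_fixed {σ : Equiv.Perm (Vt φ R)} (hσ : Pres φ R s σ) (i : ι) (x : G)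
    (h0 : σ (vt φ R i x (R i).v0) = vt φ R i x (R i).v0) (a : (R i).V) :
    σ (vt φ R i x a) = vt φ R i x a := by
  classical
  have hex : ∀ a : (R i).V, ∃ a', σ (vt φ R i x a) = vt φ R i x a' := by
    intro a
    induction (R i).conn a with
    | refl => exact ⟨_, h0⟩
    | tail _ h2 ih =>
      obtain ⟨b', hb'⟩ := ih
      obtain ⟨c, h | h⟩ := h2
      · have h3 := (hσ (inn R J i c) _ _).2 (inn_iff (x := x).2 h)
        rw [hb'] at h3
        obtain ⟨d, hd, -⟩ := inn_left h3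
        exact ⟨d, hd⟩
      · have h3 := (hσ (inn R J i c) _ _).2 (inn_iff (x := x).2 h)
        rw [hb'] at h3
        obtain ⟨d, hd, -⟩ := inn_right h3
        exact ⟨d, hd⟩
  choose τ hτ using hex
  have hτinj : Function.Injective τ := by
    intro a b hab
    have h1 : σ (vt φ R i x a) = σ (vt φ R i x b) := by rw [hτ, hτ, hab]
    exact vt_inj (σ.injective h1)
  have hτbij : Function.Bijective τ := Finite.injective_iff_bijective.1 hτinj
  have h1 := (R i).rigid (Equiv.ofBijective τ hτbij) (by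
    intro c v w
    show (R i).arc c (τ v) (τ w) ↔ (R i).arc c v w
    rw [← inn_iff (s := s) (φ := φ) (R := R) (J := J) (x := x) (a := τ v),
      ← hτ, ← hτ, hσ, inn_iff]) (by
    show τ (R i).v0 = (R i).v0
    have := hτ (R i).v0
    rw [h0] at this
    exact (vt_inj this).symm)
  have h2 : τ a = a := by
    have := Equiv.congr_fun h1 a
    exact this
  rw [hτ, h2]

theorem link_fixed {σ : Equiv.Perm (Vt φ R)} (hσ : Pres φ R s σ) {x y : G}
    (hx : σ (vg φ R x) = vg φ R y) (i : ι) :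
    σ (vt φ R i x (R i).v0) = vt φ R i y (R i).v0 := by
  have h1 : arcT φ R s (lnk R J i) (vg φ R x) (vt φ R i x (R i).v0) := ⟨x, rfl, rfl⟩
  have h2 := (hσ _ _ _).2 h1
  rw [hx] at h2
  obtain ⟨z, hz, hz'⟩ := h2
  rw [vg_inj hz]
  exact hz'

theorem all_fixed {σ : Equiv.Perm (Vt φ R)} (hσ : Pres φ R s σ) {x : G}
    (hx : σ (vg φ R x) = vg φ R x) (i : ι) (a : (R i).V) :
    σ (vt φ R i x a) = vt φ R i x a :=
  fibre_fixed hσ i x (link_fixed hσ hx i) a

theorem rigidT [Finite G]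
    (hF : ∀ F : Subgroup G, (∀ j, s j ∈ F) →
      (∀ I' : Set ι, (∀ x : G, (∀ i ∈ I', ∃ h : x ∈ H i, φ i ⟨x, h⟩ = 1) → x = 1) →
        ∀ g : G, (∀ i ∈ I', ∃ f ∈ F, ∃ h ∈ H i, g = f * h) → g ∈ F) → F = ⊤)
    (σ : Equiv.Perm (Vt φ R)) (hσ : Pres φ R s σ) (h1 : σ (vg φ R 1) = vg φ R 1) : σ = 1 := by
  classical
  let M : Submonoid G :=
    { carrier := {g | ∀ σ : Equiv.Perm (Vt φ R), Pres φ R s σ → σ (vg φ R 1) = vg φ R 1 →
        σ (vg φ R g) = vg φ R g}
      one_mem' := fun σ _ h => h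
      mul_mem' := by
        intro g x hg hx σ hσ h1
        let σ' : Equiv.Perm (Vt φ R) :=
          (MulAction.toPerm g).trans (σ.trans (MulAction.toPerm g⁻¹))
        have hσ'e : ∀ v, σ' v = g⁻¹ • σ (g • v) := fun v => rfl
        have hσ' : Pres φ R s σ' := by
          intro c v w
          rw [hσ'e, hσ'e, arc_inv, hσ, arc_inv]
        have h1' : σ' (vg φ R 1) = vg φ R 1 := by
          rw [hσ'e, smul_vg, mul_one, hg σ hσ h1, smul_vg, inv_mul_cancel]
        have h2 := hx σ' hσ' h1'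
        rw [hσ'e, smul_vg, inv_smul_eq_iff, smul_vg] at h2
        exact h2 }
  have hM : ∀ g, g ∈ M ↔ ∀ σ : Equiv.Perm (Vt φ R), Pres φ R s σ → σ (vg φ R 1) = vg φ R 1 →
        σ (vg φ R g) = vg φ R g := fun g => Iff.rfl
  let F : Subgroup G :=
    { M with
      inv_mem' := by
        intro g hg
        have h2 : g⁻¹ = g ^ (orderOf g - 1) := by
          refine inv_eq_of_mul_eq_one_right ?_
          rw [← pow_succ', Nat.sub_add_cancel (orderOf_pos g), pow_orderOf_eq_one]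
        show g⁻¹ ∈ M
        rw [h2]
        exact M.pow_mem hg _ }
  have hFM : ∀ g, g ∈ F ↔ g ∈ M := fun g => Iff.rfl
  have hFtop : F = ⊤ := by
    refine hF F ?_ ?_
    · intro j
      rw [hFM, hM]
      intro σ hσ h1
      have h2 : arcT φ R s (Sum.inr (Sum.inl j)) (vg φ R 1) (vg φ R (s j)) :=
        ⟨1, rfl, by rw [one_mul]⟩
      have h3 := (hσ _ _ _).2 h2
      rw [h1] at h3
      obtain ⟨x, hx, hx'⟩ := h3
      rw [hx', ← vg_inj hx, one_mul]
    · intro I' htriv g hg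
      rw [hFM, hM]
      intro σ hσ h1
      have h2 : arcT φ R s (Sum.inl ()) (vg φ R g) (vg φ R g) := ⟨rfl, g, rfl⟩
      obtain ⟨-, g', hg'⟩ := (hσ _ _ _).2 h2
      have h3 : g⁻¹ * g' = 1 := by
        apply htriv
        intro i hi
        obtain ⟨f, hf, h, hh, rfl⟩ := hg i hi
        have hfix : σ (vg φ R f) = vg φ R f := (hM f).1 ((hFM f).1 hf) σ hσ h1
        have h4 := link_fixed hσ hg' i
        have h5 : vt φ R i (f * h) (R i).v0 = vt φ R i f (φ i ⟨h, hh⟩ • (R i).v0) :=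
          vt_mul i f ⟨h, hh⟩ _
        have h6 := all_fixed hσ hfix i (φ i ⟨h, hh⟩ • (R i).v0)
        rw [← h5, h4] at h6
        obtain ⟨k, hk1, hk2⟩ := tm_eq.1 (vt_inj' h6.symm)
        have hk3 : φ i k = 1 := (R i).free _ hk2.symm
        have hk4 : (f * h)⁻¹ * g' = k := by rw [hk1]; group
        rw [hk4]
        exact ⟨k.2, hk3⟩
      rw [hg']
      have : g' = g := by
        have := congrArg (fun z => g * z) h3
        simpa using this
      rw [this]
  have hall : ∀ x : G, σ (vg φ R x) = vg φ R x := by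
    intro x
    have : x ∈ F := by rw [hFtop]; trivial
    exact (hM x).1 ((hFM x).1 this) σ hσ h1
  ext v
  rcases cases_V v with ⟨x, rfl⟩ | ⟨i, x, a, rfl⟩
  · rw [hall]; rfl
  · rw [all_fixed hσ (hall x)]; rfl

/-! ### The cost -/

theorem card_arcs [Finite G] [Finite ι] [Finite J] :
    Nat.card {p : Ct R J × Vt φ R × Vt φ R // arcT φ R s p.1 p.2.1 p.2.2} ≤
      Nat.card (G ⊕ ((G × J) ⊕ ((G × ι) ⊕ (Σ i, (G ⧸ H i) ×
        {p : (R i).C × (R i).V × (R i).V // (R i).arc p.1 p.2.1 p.2.2})))) := by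
  classical
  let f : (G ⊕ ((G × J) ⊕ ((G × ι) ⊕ (Σ i, (G ⧸ H i) ×
        {p : (R i).C × (R i).V × (R i).V // (R i).arc p.1 p.2.1 p.2.2})))) →
      {p : Ct R J × Vt φ R × Vt φ R // arcT φ R s p.1 p.2.1 p.2.2} := fun z =>
    match z with
    | Sum.inl x => ⟨(Sum.inl (), vg φ R x, vg φ R x), rfl, x, rfl⟩
    | Sum.inr (Sum.inl (x, j)) => ⟨(Sum.inr (Sum.inl j), vg φ R x, vg φ R (x * s j)), x, rfl, rfl⟩
    | Sum.inr (Sum.inr (Sum.inl (x, i))) =>
        ⟨(lnk R J i, vg φ R x, vt φ R i x (R i).v0), x, rfl, rfl⟩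
    | Sum.inr (Sum.inr (Sum.inr ⟨i, (y, p)⟩)) =>
        ⟨(inn R J i p.1.1, vt φ R i y.out p.1.2.1, vt φ R i y.out p.1.2.2),
          y.out, p.1.2.1, p.1.2.2, rfl, rfl, p.2⟩
  refine Nat.card_le_card_of_surjective f ?_
  rintro ⟨⟨c, v, w⟩, h⟩
  rcases c with _ | j | i | ⟨i, c⟩
  · obtain ⟨h1, x, h2⟩ := h
    simp only at h1 h2
    subst h1 h2
    exact ⟨Sum.inl x, rfl⟩
  · obtain ⟨x, h1, h2⟩ := h
    simp only at h1 h2
    subst h1 h2
    exact ⟨Sum.inr (Sum.inl (x, j)), rfl⟩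
  · obtain ⟨x, h1, h2⟩ := h
    simp only at h1 h2
    subst h1 h2
    exact ⟨Sum.inr (Sum.inr (Sum.inl (x, i))), rfl⟩
  · obtain ⟨x, a, b, h1, h2, h3⟩ := h
    simp only at h1 h2
    obtain ⟨k, hk1, hk2⟩ := tm_out (φ := φ i) x a
    refine ⟨Sum.inr (Sum.inr (Sum.inr ⟨i, (QuotientGroup.mk x,
      ⟨(c, φ i k⁻¹ • a, φ i k⁻¹ • b), ((R i).inv _ _ _ _).2 h3⟩)⟩)), ?_⟩
    apply Subtype.ext
    show (inn R J i c, vt φ R i (QuotientGroup.mk x : G ⧸ H i).out (φ i k⁻¹ • a),
      vt φ R i (QuotientGroup.mk x : G ⧸ H i).out (φ i k⁻¹ • b)) = (inn R J i c, v, w)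
    have e : ∀ u : (R i).V, vt φ R i (QuotientGroup.mk x : G ⧸ H i).out (φ i k⁻¹ • u) =
        vt φ R i x u := by
      intro u
      rw [hk1, vt_mul, smul_smul, ← map_mul, mul_inv_cancel, map_one, one_smul]
    rw [e, e, h1, h2]

end glue

theorem glue : GlueStatement := by
  classical
  intro G _ _ ι J _ _ H Q _ _ φ _ r hr s hgen hF
  let R : ∀ i, Rp (Q i) (r i) := fun i => (exists_rp (hr i)).some
  refine ⟨Vt φ R, Ct R J, inferInstance, inferInstance, inferInstance, arcT φ R s, vg φ R 1,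
    Sum.inl (), arc_inv, ?_, ?_, conn hgen, ?_, ?_⟩
  · intro g hg
    rw [smul_vg, mul_one] at hg
    exact vg_inj hg
  · intro v w
    constructor
    · rintro ⟨h1, x, h2⟩
      exact ⟨h1, x, by rw [h2, smul_vg, mul_one]⟩
    · rintro ⟨h1, g, hg⟩
      exact ⟨h1, g, by rw [← hg, smul_vg, mul_one]⟩
  · intro σ hσ h1
    exact rigidT hF σ hσ h1
  · have hG : (1 : ℝ) ≤ Nat.card G := by
      exact_mod_cast Nat.one_le_iff_ne_zero.2 Nat.card_pos.ne'
    have hV : (Nat.card (Vt φ R) : ℝ) ≤ Nat.card G + ∑ i, (Nat.card (G ⧸ H i) : ℝ) *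
        Nat.card (R i).V := by
      rw [Nat.card_sum, Nat.card_sigma]
      push_cast
      gcongr with i _
      exact_mod_cast card_tw
    have hC : (Nat.card (Ct R J) : ℝ) = 1 + (Fintype.card J + (Fintype.card ι +
        ∑ i, (Nat.card (R i).C : ℝ))) := by
      rw [Nat.card_sum, Nat.card_sum, Nat.card_sum, Nat.card_sigma]
      push_cast
      simp [Nat.card_eq_fintype_card]
    have hA : (Nat.card {p : Ct R J × Vt φ R × Vt φ R // arcT φ R s p.1 p.2.1 p.2.2} : ℝ) ≤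
        Nat.card G + (Nat.card G * Fintype.card J + (Nat.card G * Fintype.card ι +
          ∑ i, (Nat.card (G ⧸ H i) : ℝ) *
            Nat.card {p : (R i).C × (R i).V × (R i).V // (R i).arc p.1 p.2.1 p.2.2})) := by
      have h1 := card_arcs (φ := φ) (R := R) (s := s)
      rw [Nat.card_sum, Nat.card_sum, Nat.card_sum, Nat.card_sigma, Nat.card_prod,
        Nat.card_prod] at h1
      simp only [Nat.card_prod] at h1
      rw [Nat.card_eq_fintype_card (α := J), Nat.card_eq_fintype_card (α := ι)] at h1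
      exact_mod_cast h1
    have hI : ∀ i, (Nat.card (G ⧸ H i) : ℝ) * Nat.card (R i).V + Nat.card (R i).C +
        Nat.card (G ⧸ H i) *
          Nat.card {p : (R i).C × (R i).V × (R i).V // (R i).arc p.1 p.2.1 p.2.2} ≤
        Nat.card G * (r i * Nat.card (Q i) / Nat.card (H i)) := by
      intro i
      have hq1 : (1 : ℝ) ≤ Nat.card (G ⧸ H i) := by
        exact_mod_cast Nat.one_le_iff_ne_zero.2 Nat.card_pos.ne'
      have hH : (0 : ℝ) < Nat.card (H i) := by exact_mod_cast Nat.card_pos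
      have hq : (Nat.card G : ℝ) = Nat.card (G ⧸ H i) * Nat.card (H i) := by
        exact_mod_cast Subgroup.card_eq_card_quotient_mul_card_subgroup (H i)
      have hcost := (R i).cost
      have h1 : (Nat.card G : ℝ) * (r i * Nat.card (Q i) / Nat.card (H i)) =
          Nat.card (G ⧸ H i) * (r i * Nat.card (Q i)) := by
        rw [hq]; field_simp
      rw [h1]
      have h2 := mul_le_mul_of_nonneg_left hcost (by linarith : (0 : ℝ) ≤ Nat.card (G ⧸ H i))
      have h3 : (Nat.card (R i).C : ℝ) ≤ Nat.card (G ⧸ H i) * Nat.card (R i).C :=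
        le_mul_of_one_le_left (by positivity) hq1
      linarith
    have hsum := Finset.sum_le_sum fun i (_ : i ∈ (Finset.univ : Finset ι)) => hI i
    rw [Finset.sum_add_distrib, Finset.sum_add_distrib, ← Finset.mul_sum] at hsum
    have hJ0 : (0 : ℝ) ≤ Fintype.card J := by positivity
    have hι0 : (0 : ℝ) ≤ Fintype.card ι := by positivity
    have e1 : (Fintype.card J : ℝ) ≤ Nat.card G * Fintype.card J :=
      le_mul_of_one_le_left hJ0 hG
    have e2 : (Fintype.card ι : ℝ) ≤ Nat.card G * Fintype.card ι :=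
      le_mul_of_one_le_left hι0 hG
    have e3 : (3 + 2 * (Fintype.card J : ℝ) + 2 * Fintype.card ι +
      ∑ i, r i * Nat.card (Q i) / Nat.card (H i)) * Nat.card G = 3 * Nat.card G +
        2 * (Nat.card G * Fintype.card J) + 2 * (Nat.card G * Fintype.card ι) +
          Nat.card G * ∑ i, r i * Nat.card (Q i) / Nat.card (H i) := by ring
    rw [e3]
    linarith

end Pool.Agent.R191.EO.Glue

namespace Pool.Agent.R191.EO

theorem glue : GlueStatement := Glue.glue

end Pool.Agent.R191.EO
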