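import Mathlib

/-!
# The cyclic case for p-groups (MP_585e73_co, part D1)
-/

namespace Pool.Agent.R191.EO

theorem units_data {p : ℕ} (hp : p.Prime) (a : ℕ) :
    ∃ (L : Type) (_ : Group L) (_ : IsCyclic L) (t : (ZMod (p ^ a))ˣ →* L) (u : (ZMod (p ^ a))ˣ),
      ∀ y, t y = 1 → y ∈ Subgroup.zpowers u := by
  by_cases h2 : p = 2 ∧ 3 ≤ a
  · obtain ⟨rfl, ha⟩ := h2
    obtain ⟨n, rfl⟩ : ∃ n, a = n + 2 := ⟨a - 2, by omega⟩
    have hd : (4 : ℕ) ∣ 2 ^ (n + 2) := ⟨2 ^ n, by rw [pow_add]; ring⟩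
    have h5 : IsUnit (5 : ZMod (2 ^ (n + 2))) := by
      have : ((5 : ℕ) : ZMod (2 ^ (n + 2))) = 5 := by norm_cast
      rw [← this, ZMod.isUnit_iff_coprime]
      apply Nat.Coprime.pow_right
      norm_num
    refine ⟨(ZMod 4)ˣ, inferInstance, ZMod.isCyclic_units_four, ZMod.unitsMap hd, h5.unit, ?_⟩
    have hsurj : Function.Surjective (ZMod.unitsMap hd) := ZMod.unitsMap_surjective hd
    have hcard : Nat.card (ZMod (2 ^ (n + 2)))ˣ = 2 ^ (n + 1) := by
      rw [Nat.card_eq_fintype_card, ZMod.card_units_eq_totient, Nat.totient_prime_pow_succ hp]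
      simp
    have hcard4 : Nat.card (ZMod 4)ˣ = 2 := by
      rw [Nat.card_eq_fintype_card, ZMod.card_units_eq_totient]
      decide
    have hidx : (ZMod.unitsMap hd).ker.index = 2 := by
      rw [Subgroup.index_ker, MonoidHom.range_eq_top.2 hsurj, Subgroup.card_top, hcard4]
    have hker : Nat.card (ZMod.unitsMap hd).ker = 2 ^ n := by
      have := Subgroup.card_mul_index (ZMod.unitsMap hd).ker
      rw [hidx, hcard] at this
      have e : (2 : ℕ) ^ (n + 1) = 2 ^ n * 2 := pow_succ _ _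
      omega
    have hord : orderOf h5.unit = 2 ^ n := by
      rw [← orderOf_injective _ Units.coeHom_injective h5.unit, Units.coeHom_apply,
        IsUnit.unit_spec]
      exact ZMod.orderOf_five n
    have hle : Subgroup.zpowers h5.unit ≤ (ZMod.unitsMap hd).ker := by
      rw [Subgroup.zpowers_le, MonoidHom.mem_ker]
      ext
      rw [ZMod.unitsMap_val]
      simp only [IsUnit.unit_spec, Units.val_one]
      have : ((5 : ZMod (2 ^ (n + 2))).cast : ZMod 4) = ZMod.castHom hd (ZMod 4) 5 := rfl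
      rw [this, map_ofNat]
      decide
    have heq : Subgroup.zpowers h5.unit = (ZMod.unitsMap hd).ker := by
      apply Subgroup.eq_of_le_of_card_ge hle
      rw [hker, Nat.card_zpowers, hord]
    intro y hy
    rw [heq]
    exact hy
  · have hc : IsCyclic (ZMod (p ^ a))ˣ := by
      by_cases hp2 : p = 2
      · subst hp2
        rw [ZMod.isCyclic_units_two_pow_iff]
        by_contra h
        exact h2 ⟨rfl, by omega⟩
      · exact ZMod.isCyclic_units_of_prime_pow p hp hp2 a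
    exact ⟨_, inferInstance, hc, MonoidHom.id _, 1, by simp⟩

/-- a generator of the image of a subgroup inside a cyclic subgroup -/
theorem image_gen {P K : Type} [Group P] [Group K] (f : P →* K) (S : Subgroup P) (u : K)
    (hu : ∀ x ∈ S, f x ∈ Subgroup.zpowers u) :
    ∃ g ∈ S, ∀ x ∈ S, ∃ k : ℤ, f x = f g ^ k := by
  have hle : S.map f ≤ Subgroup.zpowers u := by
    rintro _ ⟨x, hx, rfl⟩
    exact hu x hx
  have hc : IsCyclic (S.map f) := Subgroup.isCyclic_of_le hle
  obtain ⟨⟨g, hg⟩, hgen⟩ := hc.exists_generator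
  obtain ⟨g', hg', rfl⟩ := hg
  refine ⟨g', hg', fun x hx => ?_⟩
  obtain ⟨k, hk⟩ := hgen ⟨f x, x, hx, rfl⟩
  exact ⟨k, by simpa using (congrArg Subtype.val hk).symm⟩

theorem cyclic_case {p : ℕ} (hp : p.Prime) {P : Type} [Group P] [Finite P] (hP : IsPGroup p P)
    (A : Subgroup P) [A.Normal] [hA : IsCyclic A] (hC : Subgroup.centralizer (A : Set P) ≤ A) :
    ∃ s : Fin 3 → P, Subgroup.closure (Set.range s) = ⊤ := by
  haveI : Fact p.Prime := ⟨hp⟩
  obtain ⟨n, hn⟩ := (hP.to_subgroup A).exists_card_eq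
  obtain ⟨L, iL, iLc, t, u, htu⟩ := units_data hp n
  -- the conjugation action
  let f : P →* (ZMod (p ^ n))ˣ :=
    (Units.mapEquiv (ZMod.ringEquivCongr hn).toMulEquiv).toMonoidHom.comp
      ((IsCyclic.mulAutMulEquiv A).toMonoidHom.comp (MulAut.conjNormal (H := A)))
  have hker : ∀ x, f x = 1 → x ∈ A := by
    intro x hx
    apply hC
    have h1 : (MulAut.conjNormal (H := A)) x = 1 := by
      have hx' := hx
      simp only [f, MonoidHom.comp_apply] at hx'
      have h2 := (MulEquiv.map_eq_one_iff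
        (Units.mapEquiv (ZMod.ringEquivCongr hn).toMulEquiv)).1 hx'
      exact (MulEquiv.map_eq_one_iff (IsCyclic.mulAutMulEquiv A)).1 h2
    rw [Subgroup.mem_centralizer_iff]
    intro y hy
    have h3 := congrArg (fun e => ((e ⟨y, hy⟩ : A) : P)) h1
    simp only [MulAut.conjNormal_apply, MulAut.one_apply] at h3
    rw [mul_inv_eq_iff_eq_mul] at h3
    exact h3.symm
  -- first generator
  obtain ⟨l, hl⟩ := iLc.exists_generator
  obtain ⟨g₁, -, h₁⟩ := image_gen (t.comp f) ⊤ l (fun x _ => hl _)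
  obtain ⟨g₂, hg₂, h₂⟩ := image_gen f (t.comp f).ker u (fun x hx => htu _ hx)
  obtain ⟨a, ha⟩ := hA.exists_generator
  refine ⟨![g₁, g₂, a], ?_⟩
  rw [eq_top_iff]
  intro x _
  have m1 : g₁ ∈ Subgroup.closure (Set.range ![g₁, g₂, (a : P)]) :=
    Subgroup.subset_closure ⟨0, rfl⟩
  have m2 : g₂ ∈ Subgroup.closure (Set.range ![g₁, g₂, (a : P)]) :=
    Subgroup.subset_closure ⟨1, rfl⟩
  have m3 : (a : P) ∈ Subgroup.closure (Set.range ![g₁, g₂, (a : P)]) :=
    Subgroup.subset_closure ⟨2, rfl⟩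
  obtain ⟨k, hk⟩ := h₁ x trivial
  have hx1 : x * (g₁ ^ k)⁻¹ ∈ (t.comp f).ker := by
    rw [MonoidHom.mem_ker, map_mul, map_inv, map_zpow, hk, mul_inv_cancel]
  obtain ⟨l', hl'⟩ := h₂ _ hx1
  have hx2 : x * (g₁ ^ k)⁻¹ * (g₂ ^ l')⁻¹ ∈ A := by
    apply hker
    rw [map_mul, hl', map_inv, map_zpow, mul_inv_cancel]
  obtain ⟨m, hm⟩ := ha ⟨_, hx2⟩
  have hm' : (a : P) ^ m = x * (g₁ ^ k)⁻¹ * (g₂ ^ l')⁻¹ := by
    simpa using congrArg Subtype.val hm
  have : x = (a : P) ^ m * g₂ ^ l' * g₁ ^ k := by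
    rw [hm']
    group
  rw [this]
  exact mul_mem (mul_mem (zpow_mem m3 _) (zpow_mem m2 _)) (zpow_mem m1 _)

/-- a maximal abelian normal subgroup -/
def MaxAb {P : Type} [Group P] (A : Subgroup P) : Prop :=
  A.Normal ∧ (∀ x ∈ A, ∀ y ∈ A, x * y = y * x) ∧
    ∀ B : Subgroup P, B.Normal → (∀ x ∈ B, ∀ y ∈ B, x * y = y * x) → A ≤ B → B ≤ A

theorem exists_maxAb (P : Type) [Group P] [Finite P] : ∃ A : Subgroup P, MaxAb A := by
  classical
  let S : Set (Subgroup P) := {B | B.Normal ∧ (∀ x ∈ B, ∀ y ∈ B, x * y = y * x)}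
  have hS : S.Finite := Set.toFinite S
  have hne : S.Nonempty := ⟨⊥, inferInstance, by
    intro x hx y hy
    rw [Subgroup.mem_bot] at hx hy
    rw [hx, hy]⟩
  obtain ⟨A, hA⟩ := hS.exists_maximal hne
  exact ⟨A, hA.1.1, hA.1.2, fun B hB1 hB2 hAB => hA.2 ⟨hB1, hB2⟩ hAB⟩

/-- a nontrivial normal subgroup of a `p`-group meets the centre -/
theorem exists_central {p : ℕ} (hp : p.Prime) {P : Type} [Group P] [Finite P]
    (hP : IsPGroup p P) (N : Subgroup P) [N.Normal] (hN : N ≠ ⊥) :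
    ∃ x ∈ N, x ≠ 1 ∧ x ∈ Subgroup.center P := by
  haveI : Fact p.Prime := ⟨hp⟩
  haveI : Finite N := inferInstance
  -- conjugation action on N
  letI : MulAction P N := MulAction.compHom N (MulAut.conjNormal (H := N))
  have hact : ∀ (g : P) (x : N), ((g • x : N) : P) = g * x * g⁻¹ := fun g x => by
    change ((MulAut.conjNormal g x : N) : P) = _
    rw [MulAut.conjNormal_apply]
  have hcard : p ∣ Nat.card N := by
    obtain ⟨k, hk⟩ := (hP.to_subgroup N).exists_card_eq
    have hk0 : k ≠ 0 := by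
      rintro rfl
      rw [pow_zero] at hk
      exact hN (Subgroup.card_eq_one.1 hk)
    rw [hk]
    exact dvd_pow_self _ hk0
  have hfix : (1 : N) ∈ MulAction.fixedPoints P N := by
    intro g
    apply Subtype.ext
    rw [hact]
    simp
  obtain ⟨x, hx, hne⟩ := hP.exists_fixed_point_of_prime_dvd_card_of_fixed_point N hcard hfix
  refine ⟨x, x.2, fun h => hne (Subtype.ext h.symm), ?_⟩
  rw [Subgroup.mem_center_iff]
  intro g
  have := congrArg Subtype.val (hx g)
  rw [hact] at this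
  exact mul_inv_eq_iff_eq_mul.1 this

/-- if `A < C` are normal in the `p`-group `P` then there is an element of `C ∖ A` central modulo
`A`. -/
theorem exists_central_mod {p : ℕ} (hp : p.Prime) {P : Type} [Group P] [Finite P]
    (hP : IsPGroup p P) (A C : Subgroup P) [hAn : A.Normal] [hCn : C.Normal] (hAC : ¬ C ≤ A) :
    ∃ x ∈ C, x ∉ A ∧ ∀ g : P, g * x * g⁻¹ * x⁻¹ ∈ A := by
  haveI : Fact p.Prime := ⟨hp⟩
  let π := QuotientGroup.mk' A
  have hQ : IsPGroup p (P ⧸ A) := hP.to_quotient A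
  haveI : (C.map π).Normal := Subgroup.Normal.map hCn π (QuotientGroup.mk'_surjective A)
  have hne : C.map π ≠ ⊥ := by
    intro h
    apply hAC
    intro c hc
    have : π c ∈ C.map π := ⟨c, hc, rfl⟩
    rw [h, Subgroup.mem_bot] at this
    exact (QuotientGroup.eq_one_iff c).1 this
  obtain ⟨_, ⟨x, hx, rfl⟩, hx1, hxc⟩ := exists_central hp hQ (C.map π) hne
  refine ⟨x, hx, fun h => hx1 ((QuotientGroup.eq_one_iff x).2 h), fun g => ?_⟩
  rw [Subgroup.mem_center_iff] at hxc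
  have h := hxc (π g)
  apply (QuotientGroup.eq_one_iff _).1
  change π (g * x * g⁻¹ * x⁻¹) = 1
  rw [map_mul, map_mul, map_mul, map_inv, map_inv, h]
  group

/-- A maximal abelian normal subgroup of a finite `p`-group is self-centralizing. -/
theorem centralizer_le_of_maxAb {p : ℕ} (hp : p.Prime) {P : Type} [Group P] [Finite P]
    (hP : IsPGroup p P) {A : Subgroup P} (hA : MaxAb A) :
    Subgroup.centralizer (A : Set P) ≤ A := by
  haveI : Fact p.Prime := ⟨hp⟩
  obtain ⟨hn, hab, hmax⟩ := hA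
  by_contra hcon
  obtain ⟨x, hxC, hxA, hx⟩ := exists_central_mod hp hP A (Subgroup.centralizer (A : Set P)) hcon
  have hcomm : ∀ y ∈ A, y * x = x * y := fun y hy => (Subgroup.mem_centralizer_iff.1 hxC) y hy
  let B : Subgroup P := A ⊔ Subgroup.zpowers x
  have hBmem : ∀ b ∈ B, ∃ a ∈ A, ∃ k : ℤ, b = a * x ^ k := by
    intro b hb
    obtain ⟨a, ha, z, ⟨k, rfl⟩, rfl⟩ := Subgroup.mem_sup_of_normal_left.1 hb
    exact ⟨a, ha, k, rfl⟩
  have hxB : x ∈ B := (le_sup_right : Subgroup.zpowers x ≤ B) (Subgroup.mem_zpowers x)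
  have hAB : A ≤ B := le_sup_left
  have hBn : B.Normal := by
    constructor
    intro b hb g
    obtain ⟨a, ha, k, rfl⟩ := hBmem b hb
    have e1 : g * (a * x ^ k) * g⁻¹ = (g * a * g⁻¹) * (g * x * g⁻¹) ^ k := by
      rw [conj_zpow]
      group
    have e2 : g * x * g⁻¹ = (g * x * g⁻¹ * x⁻¹) * x := by group
    rw [e1]
    refine mul_mem (hAB (hn.conj_mem a ha g)) (zpow_mem ?_ k)
    rw [e2]
    exact mul_mem (hAB (hx g)) hxB
  have hBc : ∀ b ∈ B, ∀ c ∈ B, b * c = c * b := by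
    have hxk : ∀ a ∈ A, ∀ k : ℤ, Commute a (x ^ k) := fun a ha k =>
      Commute.zpow_right (show Commute a x from hcomm a ha) k
    intro b hb c hc
    obtain ⟨a, ha, k, rfl⟩ := hBmem b hb
    obtain ⟨a', ha', k', rfl⟩ := hBmem c hc
    have c1 : Commute a a' := hab a ha a' ha'
    have c2 := hxk a ha k'
    have c3 := hxk a' ha' k
    have c4 : Commute (x ^ k) (x ^ k') := Commute.zpow_zpow (Commute.refl x) k k'
    exact ((c1.mul_right c2).mul_left ((c3.symm).mul_right c4)).eq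
  exact hxA (hmax B hBn hBc hAB hxB)

end Pool.Agent.R191.EO
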