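import Pool.Agent.R191.EO.Cor
import Pool.Agent.R191.EO.PGa

/-!
# Groups of prime power order (MP_585e73_co, part D)
-/

set_option autoImplicit false
set_option linter.style.haveILetI false

namespace Pool.Agent.R191.EO.PG

open Subgroup
open scoped Pointwise

/-- a finite abelian `p`-group whose elements of order `p` lie in one cyclic group is cyclic -/
lemma cyclic_of {p : ℕ} (hp : p.Prime) {A : Type} [CommGroup A] [Finite A] (hA : IsPGroup p A)
    (z : A) (hz : z ^ p = 1) (hz1 : z ≠ 1) (h : ∀ x : A, x ^ p = 1 → x ∈ zpowers z) :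
    IsCyclic A := by
  haveI : Fact p.Prime := ⟨hp⟩
  obtain ⟨a, ha⟩ := Monoid.exists_orderOf_eq_exponent (Monoid.ExponentExists.of_finite (G := A))
  obtain ⟨e, he⟩ := IsPGroup.iff_orderOf.1 hA a
  have hexp : ∀ b : A, b ^ p ^ e = 1 := by
    intro b
    rw [← he, ha]
    exact Monoid.pow_exponent_eq_one b
  have hzo : orderOf z = p := orderOf_eq_prime hz hz1
  have he1 : e ≠ 0 := by
    rintro rfl
    have := hexp z
    rw [pow_zero, pow_one] at this
    exact hz1 this
  obtain ⟨f, rfl⟩ := Nat.exists_eq_succ_of_ne_zero he1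
  have ha0 : (a ^ p ^ f) ^ p = 1 := by
    rw [← pow_mul, ← pow_succ]
    exact hexp a
  have ha1 : a ^ p ^ f ≠ 1 := by
    intro h1
    have h2 := orderOf_dvd_of_pow_eq_one h1
    rw [he] at h2
    have h3 := Nat.le_of_dvd (pow_pos hp.pos _) h2
    have h4 := Nat.pow_lt_pow_right hp.one_lt (Nat.lt_succ_self f)
    omega
  have hza : z ∈ zpowers a := by
    have h1 : zpowers (a ^ p ^ f) ≤ zpowers z := zpowers_le.2 (h _ ha0)
    have h2 : zpowers (a ^ p ^ f) = zpowers z := by
      apply eq_of_le_of_card_ge h1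
      rw [Nat.card_zpowers, Nat.card_zpowers, hzo, orderOf_eq_prime ha0 ha1]
    have h3 : z ∈ zpowers (a ^ p ^ f) := by
      rw [h2]; exact mem_zpowers z
    exact (zpowers_le.2 (pow_mem (mem_zpowers a) _)) h3
  refine ⟨a, fun b => ?_⟩
  by_contra hb
  have hex : ∃ j, b ^ p ^ j ∈ zpowers a := ⟨f + 1, by rw [hexp b]; exact one_mem _⟩
  classical
  have hj0 : Nat.find hex ≠ 0 := by
    intro h0
    have := Nat.find_spec hex
    rw [h0, pow_zero, pow_one] at this
    exact hb this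
  obtain ⟨j, hj⟩ := Nat.exists_eq_succ_of_ne_zero hj0
  have hb1 : b ^ p ^ j ∉ zpowers a := Nat.find_min hex (by omega)
  have hb2 : (b ^ p ^ j) ^ p ∈ zpowers a := by
    have := Nat.find_spec hex
    rw [hj, pow_succ, pow_mul] at this
    exact this
  obtain ⟨k, hk⟩ := mem_zpowers_iff.1 hb2
  have hk2 : a ^ (k * (p ^ f : ℕ)) = 1 := by
    rw [zpow_mul, zpow_natCast, hk, ← pow_mul, ← pow_mul]
    have : p ^ j * (p * p ^ f) = p ^ (f + 1) * p ^ j := by rw [pow_succ]; ring
    have hb' : b ^ p ^ (f + 1) = 1 := hexp b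
    rw [this, pow_mul, hb', one_pow]
  have hk3 : (p : ℤ) ∣ k := by
    have h1 := orderOf_dvd_iff_zpow_eq_one.2 hk2
    rw [he, pow_succ] at h1
    push_cast at h1
    have h2 : ((p : ℤ) ^ f) ≠ 0 := pow_ne_zero _ (by exact_mod_cast hp.ne_zero)
    rw [mul_comm] at h1
    exact (mul_dvd_mul_iff_right h2).1 h1
  obtain ⟨k', rfl⟩ := hk3
  have h5 : (b ^ p ^ j * a ^ (-k')) ^ p = 1 := by
    rw [mul_pow, ← hk, ← zpow_natCast (a ^ (-k')), ← zpow_mul, ← zpow_add]
    have : (p : ℤ) * k' + -k' * p = 0 := by ring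
    rw [this, zpow_zero]
  have h6 : b ^ p ^ j * a ^ (-k') ∈ zpowers a := (zpowers_le.2 hza) (h _ h5)
  apply hb1
  have h7 := mul_mem h6 (zpow_mem (mem_zpowers a) k')
  rwa [mul_assoc, ← zpow_add, neg_add_cancel, zpow_zero, mul_one] at h7

/-- an element of order `p` modulo `K`, central modulo `K` -/
lemma exists_mod {p : ℕ} (hp : p.Prime) {P : Type} [Group P] [Finite P] (hP : IsPGroup p P)
    (K N : Subgroup P) [hKn : K.Normal] [hNn : N.Normal] (hNK : ¬ N ≤ K) :
    ∃ y ∈ N, y ∉ K ∧ (∀ g : P, g * y * g⁻¹ * y⁻¹ ∈ K) ∧ y ^ p ∈ K := by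
  haveI : Fact p.Prime := ⟨hp⟩
  obtain ⟨x, hxN, hxK, hx⟩ := exists_central_mod hp hP K N hNK
  classical
  let π := QuotientGroup.mk' K
  have hπ : ∀ y, π y = 1 ↔ y ∈ K := fun y => QuotientGroup.eq_one_iff y
  have hcen : π x ∈ center (P ⧸ K) := by
    rw [mem_center_iff]
    intro g
    obtain ⟨g, rfl⟩ := QuotientGroup.mk'_surjective K g
    have h1 := (hπ _).2 (hx g)
    rw [map_mul, map_mul, map_mul, map_inv, map_inv, mul_inv_eq_one, mul_inv_eq_iff_eq_mul] at h1
    exact h1
  obtain ⟨j, hj⟩ := IsPGroup.iff_orderOf.1 (hP.to_quotient K) (π x)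
  have hj0 : j ≠ 0 := by
    rintro rfl
    rw [pow_zero, orderOf_eq_one_iff, hπ] at hj
    exact hxK hj
  obtain ⟨i, rfl⟩ := Nat.exists_eq_succ_of_ne_zero hj0
  refine ⟨x ^ p ^ i, pow_mem hxN _, ?_, ?_, ?_⟩
  · rw [← hπ, map_pow]
    intro h1
    have h2 := orderOf_dvd_of_pow_eq_one h1
    rw [hj] at h2
    have h3 := Nat.le_of_dvd (pow_pos hp.pos _) h2
    have h4 := Nat.pow_lt_pow_right hp.one_lt (Nat.lt_succ_self i)
    omega
  · intro g
    rw [← hπ, map_mul, map_mul, map_mul, map_inv, map_inv, map_pow, mul_inv_eq_one,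
      mul_inv_eq_iff_eq_mul]
    exact mem_center_iff.1 (pow_mem hcen _) (π g)
  · rw [← hπ, map_pow, map_pow, ← pow_mul, ← pow_succ]
    rw [← hj]
    exact pow_orderOf_eq_one _

/-- an element of prime order outside of `M` generates a complement -/
lemma inf_bot {p : ℕ} (hp : p.Prime) {P : Type} [Group P] (M : Subgroup P) (w : P)
    (hw : w ^ p = 1) (hwM : w ∉ M) : M ⊓ zpowers w = ⊥ := by
  rw [eq_bot_iff]
  rintro y ⟨hyM, hyw⟩
  obtain ⟨k, rfl⟩ := mem_zpowers_iff.1 hyw
  by_cases hk : (p : ℤ) ∣ k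
  · obtain ⟨l, rfl⟩ := hk
    rw [Subgroup.mem_bot, zpow_mul, zpow_natCast, hw, one_zpow]
  · exfalso
    apply hwM
    have hc : IsCoprime (p : ℤ) k := (Nat.prime_iff_prime_int.1 hp).coprime_iff_not_dvd.2 hk
    obtain ⟨u, v, huv⟩ := hc
    have : w = (w ^ p) ^ u * (w ^ k) ^ v := by
      rw [← zpow_natCast w p, ← zpow_mul, ← zpow_mul, ← zpow_add]
      have : (p : ℤ) * u + k * v = 1 := by linarith
      rw [this, zpow_one]
    rw [this, hw, one_zpow, one_mul]
    exact zpow_mem (show w ^ k ∈ M from hyM) v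

/-- normality of `A⟨x⟩` -/
lemma sup_normal {P : Type} [Group P] (A : Subgroup P) [hn : A.Normal] (x : P)
    (hx : ∀ g, g * x * g⁻¹ * x⁻¹ ∈ A) : (A ⊔ zpowers x).Normal := by
  have hxB : x ∈ A ⊔ zpowers x := (le_sup_right : zpowers x ≤ A ⊔ zpowers x) (mem_zpowers x)
  have hAB : A ≤ A ⊔ zpowers x := le_sup_left
  constructor
  intro b hb g
  obtain ⟨a, ha, z, ⟨k, rfl⟩, rfl⟩ := mem_sup_of_normal_left.1 hb
  simp only
  have e1 : g * (a * x ^ k) * g⁻¹ = (g * a * g⁻¹) * (g * x * g⁻¹) ^ k := by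
    rw [conj_zpow]
    group
  have e2 : g * x * g⁻¹ = (g * x * g⁻¹ * x⁻¹) * x := by group
  rw [e1]
  refine mul_mem (hAB (hn.conj_mem a ha g)) (zpow_mem ?_ k)
  rw [e2]
  exact mul_mem (hAB (hx g)) hxB

lemma card_quot_lt {G : Type} [Group G] [Finite G] (K : Subgroup G) (hK : 2 ≤ Nat.card K) :
    Nat.card (G ⧸ K) < Nat.card G := by
  have h := Subgroup.card_eq_card_quotient_mul_card_subgroup K
  have h2 : 0 < Nat.card (G ⧸ K) := Nat.card_pos
  rw [h]
  nlinarith

lemma normal_of_central {P : Type} [Group P] (H M : Subgroup P)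
    (hc : ∀ m ∈ M, ∀ h ∈ H, h * m = m * h) : (M.subgroupOf H).Normal := by
  constructor
  rintro ⟨n, hn⟩ hnM ⟨g, hg⟩
  have h1 : n ∈ M := hnM
  have h2 : g * n * g⁻¹ = n := by
    rw [hc n h1 g hg, mul_inv_cancel_right]
  change g * n * g⁻¹ ∈ M
  rw [h2]
  exact h1

/-- the reduction step -/
lemma core (hG : GlueStatement) {p : ℕ} (hp : p.Prime) {P : Type} [Group P] [Finite P]
    (hP : IsPGroup p P) (c : ℝ)
    (IH : ∀ (Q : Type) [Group Q] [Finite Q], IsPGroup p Q → Nat.card Q < Nat.card P → HasRep Q c)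
    {J : Type} [Fintype J] (s : J → P) (H : Subgroup P)
    (hs : closure (Set.range s ∪ (H : Set P)) = ⊤) (M : Subgroup P) (w : P)
    (hM : M ≤ H) (hMc : ∀ m ∈ M, ∀ h ∈ H, h * m = m * h) (hw : w ∈ H)
    (hwc : ∀ h ∈ H, h * w = w * h) (hwp : w ^ p = 1) (hwM : w ∉ M) (hM2 : 2 ≤ Nat.card M) :
    HasRep P (7 + 2 * Fintype.card J + c / Nat.card M + c / p) := by
  haveI : Fact p.Prime := ⟨hp⟩
  have hW : zpowers w ≤ H := zpowers_le.2 hw
  have hWc : ∀ m ∈ zpowers w, ∀ h ∈ H, h * m = m * h := by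
    intro m hm h hh
    obtain ⟨k, rfl⟩ := mem_zpowers_iff.1 hm
    exact ((show Commute h w from hwc h hh).zpow_right k).eq
  haveI := normal_of_central H M hMc
  haveI := normal_of_central H (zpowers w) hWc
  have hw1 : w ≠ 1 := by
    rintro rfl
    exact hwM (one_mem _)
  have hc1 : Nat.card (M.subgroupOf H) = Nat.card M := Nat.card_congr (subgroupOfEquivOfLe hM).toEquiv
  have hc2 : Nat.card ((zpowers w).subgroupOf H) = p := by
    rw [Nat.card_congr (subgroupOfEquivOfLe hW).toEquiv, Nat.card_zpowers, orderOf_eq_prime hwp hw1]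
  have hinf : M.subgroupOf H ⊓ (zpowers w).subgroupOf H = ⊥ := by
    rw [eq_bot_iff]
    rintro ⟨y, hy⟩ ⟨h1, h2⟩
    have h3 : y ∈ M ⊓ zpowers w := ⟨h1, h2⟩
    rw [inf_bot hp M w hwp hwM, Subgroup.mem_bot] at h3
    rw [Subgroup.mem_bot]
    exact Subtype.ext h3
  have hle : Nat.card H ≤ Nat.card P := Subgroup.card_le_card_group _
  have r1 : HasRep (H ⧸ M.subgroupOf H) c := by
    refine IH _ ((hP.to_subgroup H).to_quotient _) ?_
    have := card_quot_lt (M.subgroupOf H) (by rw [hc1]; exact hM2)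
    omega
  have r2 : HasRep (H ⧸ (zpowers w).subgroupOf H) c := by
    refine IH _ ((hP.to_subgroup H).to_quotient _) ?_
    have := card_quot_lt ((zpowers w).subgroupOf H) (by rw [hc2]; exact hp.two_le)
    omega
  have h := two hG s H hs (M.subgroupOf H) ((zpowers w).subgroupOf H) hinf r1 r2
  rwa [hc1, hc2] at h

/-- the index of the centraliser of `x` -/
lemma index_centralizer_le {P : Type} [Group P] [Finite P] (x : P) (N : Subgroup P)
    (h : ∀ g, g * x * g⁻¹ * x⁻¹ ∈ N) : (centralizer {x}).index ≤ Nat.card N := by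
  let f : P ⧸ centralizer {x} → N := fun q => ⟨q.out * x * q.out⁻¹ * x⁻¹, h q.out⟩
  have hf : Function.Injective f := by
    intro a b hab
    have h1 : a.out * x * a.out⁻¹ * x⁻¹ = b.out * x * b.out⁻¹ * x⁻¹ := congrArg Subtype.val hab
    have h2 : a.out * x * a.out⁻¹ = b.out * x * b.out⁻¹ := mul_right_cancel h1
    have h3 : a.out⁻¹ * b.out ∈ centralizer {x} := by
      rw [mem_centralizer_singleton_iff]
      have h4 : b.out * x = a.out * x * a.out⁻¹ * b.out := by rw [h2]; group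
      calc a.out⁻¹ * b.out * x = a.out⁻¹ * (b.out * x) := by group
        _ = x * (a.out⁻¹ * b.out) := by rw [h4]; group
    have h5 : (QuotientGroup.mk a.out : P ⧸ centralizer {x}) = QuotientGroup.mk b.out :=
      QuotientGroup.eq.2 h3
    rwa [QuotientGroup.out_eq', QuotientGroup.out_eq'] at h5
  exact Nat.card_le_card_of_injective f hf

lemma closure_out {P : Type} [Group P] (H : Subgroup P) :
    closure (Set.range (fun q : P ⧸ H => q.out) ∪ (H : Set P)) = ⊤ := by
  rw [eq_top_iff]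
  intro g _
  have h1 : (QuotientGroup.mk (s := H) g).out⁻¹ * g ∈ H :=
    QuotientGroup.eq.1 (QuotientGroup.out_eq' _)
  have h2 : g = (QuotientGroup.mk (s := H) g).out * ((QuotientGroup.mk (s := H) g).out⁻¹ * g) := by
    group
  rw [h2]
  exact mul_mem (Subgroup.subset_closure (Or.inl ⟨_, rfl⟩)) (Subgroup.subset_closure (Or.inr h1))

/-- the elements `z`, `x` of a noncyclic abelian normal subgroup -/
lemma pair {p : ℕ} (hp : p.Prime) {P : Type} [Group P] [Finite P] (hP : IsPGroup p P)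
    (A : Subgroup P) [hAn : A.Normal] (hab : ∀ x ∈ A, ∀ y ∈ A, x * y = y * x)
    (hAc : ¬ IsCyclic A) : ∃ z ∈ A, ∃ x ∈ A, (∀ g : P, g * z = z * g) ∧ z ^ p = 1 ∧ z ≠ 1 ∧
      x ∉ zpowers z ∧ x ^ p = 1 ∧ ∀ g : P, g * x * g⁻¹ * x⁻¹ ∈ zpowers z := by
  have hA0 : ¬ A ≤ ⊥ := by
    intro h
    apply hAc
    have hs : Subsingleton A := by
      constructor
      intro a b
      apply Subtype.ext
      rw [Subgroup.mem_bot.1 (h a.2), Subgroup.mem_bot.1 (h b.2)]
    exact isCyclic_of_subsingleton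
  obtain ⟨z, hzA, hz0, hzc, hzp⟩ := exists_mod hp hP ⊥ A hA0
  rw [Subgroup.mem_bot] at hz0 hzp
  have hzc' : ∀ g : P, g * z = z * g := by
    intro g
    have := Subgroup.mem_bot.1 (hzc g)
    rwa [mul_inv_eq_one, mul_inv_eq_iff_eq_mul] at this
  have hznorm : (zpowers z).Normal := by
    constructor
    intro n hn g
    obtain ⟨k, rfl⟩ := mem_zpowers_iff.1 hn
    have h1 : g * z ^ k = z ^ k * g := ((show Commute g z from hzc' g).zpow_right k).eq
    rw [h1, mul_inv_cancel_right]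
    exact zpow_mem (mem_zpowers z) k
  let Ω : Subgroup P :=
    { carrier := {x | x ∈ A ∧ x ^ p = 1}
      mul_mem' := by
        rintro a b ⟨ha, ha'⟩ ⟨hb, hb'⟩
        refine ⟨mul_mem ha hb, ?_⟩
        have : Commute a b := hab a ha b hb
        rw [this.mul_pow, ha', hb', one_mul]
      one_mem' := ⟨one_mem _, one_pow _⟩
      inv_mem' := by
        rintro a ⟨ha, ha'⟩
        exact ⟨inv_mem ha, by rw [inv_pow, ha', inv_one]⟩ }
  have hΩn : Ω.Normal := by
    constructor
    rintro a ⟨ha, ha'⟩ g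
    refine ⟨hAn.conj_mem a ha g, ?_⟩
    rw [conj_pow, ha', mul_one, mul_inv_cancel]
  have hΩ : ¬ Ω ≤ zpowers z := by
    intro hle
    apply hAc
    letI : CommGroup A := { (inferInstance : Group A) with
      mul_comm := fun a b => Subtype.ext (hab a a.2 b b.2) }
    refine cyclic_of hp (A := A) (hP.to_subgroup A) ⟨z, hzA⟩ (Subtype.ext hzp)
      (fun h => hz0 (congrArg Subtype.val h)) ?_
    rintro ⟨x, hx⟩ hxp
    have h1 : x ∈ Ω := ⟨hx, congrArg Subtype.val hxp⟩
    obtain ⟨k, hk⟩ := mem_zpowers_iff.1 (hle h1)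
    exact mem_zpowers_iff.2 ⟨k, Subtype.ext hk⟩
  obtain ⟨x, ⟨hxA, hxp⟩, hxz, hxc, -⟩ := exists_mod hp hP (zpowers z) Ω hΩ
  exact ⟨z, hzA, x, hxA, hzc', hzp, hz0, hxz, hxp, hxc⟩

/-- odd primes -/
lemma case_odd (hG : GlueStatement) {p : ℕ} (hp : p.Prime) (hp3 : 3 ≤ p) {P : Type} [Group P]
    [Finite P] (hP : IsPGroup p P) (A : Subgroup P) [hAn : A.Normal]
    (hab : ∀ x ∈ A, ∀ y ∈ A, x * y = y * x) (hAc : ¬ IsCyclic A) (c : ℝ) (hc : 27 ≤ c)
    (IH : ∀ (Q : Type) [Group Q] [Finite Q], IsPGroup p Q → Nat.card Q < Nat.card P → HasRep Q c) :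
    HasRep P c := by
  obtain ⟨z, hzA, x, hxA, hzc, hzp, hz1, hxz, hxp, hx⟩ := pair hp hP A hab hAc
  haveI : Fact p.Prime := ⟨hp⟩
  have hcz : ∀ m ∈ zpowers z, ∀ g : P, g * m = m * g := by
    intro m hm g
    obtain ⟨k, rfl⟩ := mem_zpowers_iff.1 hm
    exact ((show Commute g z from hzc g).zpow_right k).eq
  let κ : P →* zpowers z := MonoidHom.mk' (fun g => ⟨g * x * g⁻¹ * x⁻¹, hx g⟩) (by
    intro g h
    apply Subtype.ext
    change g * h * x * (g * h)⁻¹ * x⁻¹ = (g * x * g⁻¹ * x⁻¹) * (h * x * h⁻¹ * x⁻¹)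
    have h1 := hcz _ (hx h) (g * x * g⁻¹ * x⁻¹)
    have h2 := hcz _ (hx h) g
    rw [h1]
    calc g * h * x * (g * h)⁻¹ * x⁻¹ = (g * (h * x * h⁻¹ * x⁻¹)) * x * g⁻¹ * x⁻¹ := by group
      _ = ((h * x * h⁻¹ * x⁻¹) * g) * x * g⁻¹ * x⁻¹ := by rw [h2]
      _ = _ := by group)
  obtain ⟨g, -, hg⟩ := image_gen κ ⊤ ⟨z, mem_zpowers z⟩ (fun y _ => by
    obtain ⟨k, hk⟩ := mem_zpowers_iff.1 (κ y).2
    exact mem_zpowers_iff.2 ⟨k, Subtype.ext hk⟩)
  have hker : ∀ y, κ y = 1 → y ∈ centralizer {x} := by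
    intro y hy
    have h1 : y * x * y⁻¹ * x⁻¹ = 1 := congrArg Subtype.val hy
    rw [mem_centralizer_singleton_iff]
    rwa [mul_inv_eq_one, mul_inv_eq_iff_eq_mul] at h1
  have hs : closure (Set.range (fun _ : Unit => g) ∪ ((centralizer {x} : Subgroup P) : Set P)) =
      ⊤ := by
    rw [eq_top_iff]
    intro y _
    obtain ⟨k, hk⟩ := hg y (mem_top y)
    have h1 : y * (g ^ k)⁻¹ ∈ centralizer {x} := by
      apply hker
      rw [map_mul, map_inv, map_zpow, hk, mul_inv_cancel]
    have h2 : y = y * (g ^ k)⁻¹ * g ^ k := by group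
    have h3 : g ∈ closure (Set.range (fun _ : Unit => g) ∪
        ((centralizer {x} : Subgroup P) : Set P)) := Subgroup.subset_closure (Or.inl ⟨(), rfl⟩)
    have h4 : y * (g ^ k)⁻¹ ∈ closure (Set.range (fun _ : Unit => g) ∪
        ((centralizer {x} : Subgroup P) : Set P)) := Subgroup.subset_closure (Or.inr h1)
    rw [h2]
    exact mul_mem h4 (zpow_mem h3 k)
  have hzo : Nat.card (zpowers z) = p := by
    rw [Nat.card_zpowers, orderOf_eq_prime hzp hz1]
  have h := core hG hp hP c IH (fun _ : Unit => g) (centralizer {x}) hs (zpowers z) x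
    (by
      rw [zpowers_le, mem_centralizer_singleton_iff]
      exact (hzc x).symm)
    (fun m hm h _ => hcz m hm h)
    (by rw [mem_centralizer_singleton_iff])
    (fun h hh => mem_centralizer_singleton_iff.1 hh) hxp hxz (by rw [hzo]; exact hp.two_le)
  refine h.mono ?_
  rw [hzo, Fintype.card_unit]
  have hp' : (3 : ℝ) ≤ p := by exact_mod_cast hp3
  have h1 : c / p ≤ c / 3 := div_le_div_of_nonneg_left (by linarith) (by norm_num) hp'
  push_cast
  linarith

lemma mem_sq {P : Type} [Group P] (y u : P) (hy : orderOf y = 4) (hu : u ∈ zpowers y)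
    (hu2 : u ^ 2 = 1) : u ∈ zpowers (y ^ 2) := by
  obtain ⟨i, rfl⟩ := mem_zpowers_iff.1 hu
  have h1 : y ^ (i * 2) = 1 := by
    rw [zpow_mul]
    exact_mod_cast hu2
  have h2 := orderOf_dvd_iff_zpow_eq_one.2 h1
  rw [hy] at h2
  obtain ⟨k, hk⟩ : (2 : ℤ) ∣ i := by
    push_cast at h2
    omega
  refine mem_zpowers_iff.2 ⟨k, ?_⟩
  rw [hk, zpow_mul]
  norm_cast

/-- the prime two, small `A` -/
lemma case_small (hG : GlueStatement) {P : Type} [Group P] [Finite P]
    (A : Subgroup P) [hAn : A.Normal] (hC : centralizer (A : Set P) ≤ A)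
    (h4 : Nat.card A ≤ 4) : HasRep P 195 := by
  have hker : (MulAut.conjNormal (H := A)).ker ≤ A := by
    intro x hx
    apply hC
    rw [mem_centralizer_iff]
    intro y hy
    have h1 : (MulAut.conjNormal (H := A)) x = 1 := hx
    have h3 := congrArg (fun e => ((e ⟨y, hy⟩ : A) : P)) h1
    simp only [MulAut.conjNormal_apply, MulAut.one_apply] at h3
    rw [mul_inv_eq_iff_eq_mul] at h3
    exact h3.symm
  have hcard := Subgroup.card_eq_card_quotient_mul_card_subgroup (MulAut.conjNormal (H := A)).ker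
  have h1 : Nat.card (MulAut.conjNormal (H := A)).ker ≤ 4 :=
    (Nat.card_le_card_of_injective _ (Subgroup.inclusion_injective hker)).trans h4
  have h2 : Nat.card (P ⧸ (MulAut.conjNormal (H := A)).ker) ≤ 24 := by
    have e1 : Function.Injective (fun f : MulAut A => (f.toEquiv : Equiv.Perm A)) := by
      intro f g hfg
      apply MulEquiv.ext
      intro a
      exact congrFun (congrArg (fun e : Equiv.Perm A => (e : A → A)) hfg) a
    have e2 : Function.Injective (QuotientGroup.kerLift (MulAut.conjNormal (H := A))) :=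
      QuotientGroup.kerLift_injective _
    have e3 := Nat.card_le_card_of_injective _ (e1.comp e2)
    rw [Nat.card_perm] at e3
    refine e3.trans ?_
    refine (Nat.factorial_le h4).trans ?_
    decide
  have h3 : Nat.card P ≤ 96 := by
    rw [hcard]
    calc _ ≤ 24 * 4 := Nat.mul_le_mul h2 h1
      _ = 96 := rfl
  haveI := Fintype.ofFinite P
  have h := gens hG (G := P) (J := P) id (by simp)
  refine h.mono ?_
  have h5 : (Fintype.card P : ℝ) ≤ 96 := by
    rw [← Nat.card_eq_fintype_card]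
    exact_mod_cast h3
  linarith

/-- the prime two -/
lemma case_two (hG : GlueStatement) {P : Type} [Group P]
    [Finite P] (hP : IsPGroup 2 P) (A : Subgroup P) [hAn : A.Normal]
    (hab : ∀ x ∈ A, ∀ y ∈ A, x * y = y * x) (hAc : ¬ IsCyclic A) (h4 : 4 < Nat.card A)
    (c : ℝ) (hc : 100 ≤ c)
    (IH : ∀ (Q : Type) [Group Q] [Finite Q], IsPGroup 2 Q → Nat.card Q < Nat.card P → HasRep Q c) :
    HasRep P c := by
  have hp := Nat.prime_two
  obtain ⟨z, hzA, x, hxA, hzc, hzp, hz1, hxz, hxp, hx⟩ := pair hp hP A hab hAc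
  haveI : Fact (Nat.Prime 2) := ⟨hp⟩
  have hcz : ∀ m ∈ zpowers z, ∀ g : P, g * m = m * g := by
    intro m hm g
    obtain ⟨k, rfl⟩ := mem_zpowers_iff.1 hm
    exact ((show Commute g z from hzc g).zpow_right k).eq
  have hznorm : (zpowers z).Normal := by
    constructor
    intro n hn g
    rw [hcz n hn g, mul_inv_cancel_right]
    exact hn
  have hx1 : x ≠ 1 := by
    rintro rfl
    exact hxz (one_mem _)
  have hzo : Nat.card (zpowers z) = 2 := by
    rw [Nat.card_zpowers, orderOf_eq_prime hzp hz1]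
  have hxo : Nat.card (zpowers x) = 2 := by
    rw [Nat.card_zpowers, orderOf_eq_prime hxp hx1]
  set E := zpowers z ⊔ zpowers x with hE
  haveI hEn : E.Normal := sup_normal (zpowers z) x hx
  have hzE : z ∈ E := (le_sup_left : zpowers z ≤ E) (mem_zpowers z)
  have hxE : x ∈ E := (le_sup_right : zpowers x ≤ E) (mem_zpowers x)
  have hEA : E ≤ A := sup_le (zpowers_le.2 hzA) (zpowers_le.2 hxA)
  have hE4 : Nat.card E ≤ 4 := by
    have h1 : (E : Set P) = (zpowers z : Set P) * (zpowers x : Set P) := normal_mul _ _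
    have h2 : Nat.card E = Nat.card ((zpowers z : Set P) * (zpowers x : Set P) : Set P) := by
      rw [← h1]; rfl
    rw [h2]
    refine Set.natCard_mul_le.trans ?_
    have h3 : Nat.card ((zpowers z : Subgroup P) : Set P) = 2 := hzo
    have h5 : Nat.card ((zpowers x : Subgroup P) : Set P) = 2 := hxo
    rw [h3, h5]
  have hE4' : 4 ≤ Nat.card E := by
    have h1 : Nat.card (zpowers z) ∣ Nat.card E := Subgroup.card_dvd_of_le le_sup_left
    rw [hzo] at h1
    have h2 : Nat.card (zpowers z) ≠ Nat.card E := by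
      intro h
      have := Subgroup.eq_of_le_of_card_ge (le_sup_left : zpowers z ≤ E) h.symm.le
      exact hxz (this ▸ hxE)
    rw [hzo] at h2
    have h3 : 0 < Nat.card E := Nat.card_pos
    omega
  have hAE : ¬ A ≤ E := by
    intro h
    have := Subgroup.card_le_of_le h
    omega
  obtain ⟨y, hyA, hyE, hy, hy2⟩ := exists_mod hp hP E A hAE
  set H := centralizer {x} ⊓ centralizer {y} with hH
  have hAH : A ≤ H := by
    intro a ha
    exact ⟨mem_centralizer_singleton_iff.2 (hab a ha x hxA),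
      mem_centralizer_singleton_iff.2 (hab a ha y hyA)⟩
  have hHx : ∀ h ∈ H, h * x = x * h := fun h hh => mem_centralizer_singleton_iff.1 hh.1
  have hHy : ∀ h ∈ H, h * y = y * h := fun h hh => mem_centralizer_singleton_iff.1 hh.2
  have hHz : ∀ h ∈ H, h * z = z * h := fun h _ => hzc h
  have hidx : H.index ≤ 8 := by
    refine (index_inf_le).trans ?_
    have h1 := index_centralizer_le x (zpowers z) hx
    have h2 := index_centralizer_le y E hy
    rw [hzo] at h1
    calc _ ≤ 2 * 4 := Nat.mul_le_mul h1 (h2.trans hE4)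
      _ = 8 := rfl
  have hEc : ∀ m ∈ E, ∀ h ∈ H, h * m = m * h := by
    have : E ≤ centralizer (H : Set P) := by
      refine sup_le (zpowers_le.2 ?_) (zpowers_le.2 ?_)
      · rw [mem_centralizer_iff]; exact fun h hh => hHz h hh
      · rw [mem_centralizer_iff]; exact fun h hh => hHx h hh
    intro m hm h hh
    exact mem_centralizer_iff.1 (this hm) h hh
  have hEsq : ∀ m ∈ E, m ^ 2 = 1 := by
    intro m hm
    obtain ⟨a, ⟨i, rfl⟩, b, ⟨j, rfl⟩, rfl⟩ := mem_sup_of_normal_left.1 hm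
    have h1 : Commute (z ^ i) (x ^ j) := (show Commute z x from (hzc x).symm).zpow_zpow i j
    simp only
    rw [h1.mul_pow, ← zpow_natCast (z ^ i), ← zpow_natCast (x ^ j), ← zpow_mul, ← zpow_mul,
      mul_comm i, mul_comm j, zpow_mul, zpow_mul, zpow_natCast, zpow_natCast, hzp, hxp,
      one_zpow, one_zpow, one_mul]
  haveI : Fintype (P ⧸ H) := Fintype.ofFinite _
  have hJ : (Fintype.card (P ⧸ H) : ℝ) ≤ 8 := by
    rw [← Nat.card_eq_fintype_card]
    exact_mod_cast hidx
  -- the final estimate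
  have final : ∀ (M : Subgroup P) (w : P), M ≤ A → w ∈ A → (∀ m ∈ M, ∀ h ∈ H, h * m = m * h) →
      (∀ h ∈ H, h * w = w * h) → w ^ 2 = 1 → w ∉ M → 4 ≤ Nat.card M → HasRep P c := by
    intro M w hM hw hMc hwc hwp hwM hM4
    have h := core hG hp hP c IH (fun q : P ⧸ H => q.out) H (closure_out H) M w (hM.trans hAH)
      hMc (hAH hw) hwc hwp hwM (by omega)
    refine h.mono ?_
    have hM' : (4 : ℝ) ≤ Nat.card M := by exact_mod_cast hM4
    have h1 : c / Nat.card M ≤ c / 4 := div_le_div_of_nonneg_left (by linarith) (by norm_num) hM'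
    push_cast
    linarith
  by_cases hy1 : y ^ 2 = 1
  · exact final E y hEA hyA hEc hHy hy1 hyE hE4'
  · have hyo : orderOf y = 4 := by
      have h1 : y ^ 2 ^ (1 + 1) = 1 := by
        have := hEsq _ hy2
        rw [← pow_mul] at this
        exact this
      exact orderOf_eq_prime_pow (p := 2) (n := 1) (by simpa using hy1) h1
    have hyc : Nat.card (zpowers y) = 4 := by rw [Nat.card_zpowers, hyo]
    have hYc : ∀ m ∈ zpowers y, ∀ h ∈ H, h * m = m * h := by
      intro m hm h hh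
      obtain ⟨k, rfl⟩ := mem_zpowers_iff.1 hm
      exact ((show Commute h y from hHy h hh).zpow_right k).eq
    by_cases hzy : z ∈ zpowers y
    · have hxy : x ∉ zpowers y := by
        intro hxy
        have h1 := mem_sq y z hyo hzy hzp
        have h2 := mem_sq y x hyo hxy hxp
        have h3 : zpowers z = zpowers (y ^ 2) := by
          apply eq_of_le_of_card_ge (zpowers_le.2 h1)
          rw [hzo, Nat.card_zpowers, orderOf_eq_prime (hEsq _ hy2) hy1]
        rw [← h3] at h2
        exact hxz h2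
      exact final (zpowers y) x (zpowers_le.2 hyA) hxA hYc hHx hxp hxy hyc.ge
    · exact final (zpowers y) z (zpowers_le.2 hyA) hzA hYc hHz hzp hzy hyc.ge

/-- **Part D.** -/
theorem pgroup (hG : GlueStatement) : PGroupStatement := by
  refine ⟨200, fun p hp => ?_⟩
  have key : ∀ n : ℕ, ∀ (P : Type) [Group P] [Finite P], Nat.card P = n → IsPGroup p P →
      HasRep P 200 := by
    intro n
    induction n using Nat.strong_induction_on with
    | _ n ih =>
      intro P _ _ hn hP
      obtain ⟨A, hA⟩ := exists_maxAb P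
      have hC := centralizer_le_of_maxAb hp hP hA
      obtain ⟨hAn, hab, -⟩ := hA
      haveI := hAn
      by_cases hAc : IsCyclic A
      · obtain ⟨s, hs⟩ := cyclic_case hp hP A hC
        refine (gens hG s hs).mono ?_
        rw [Fintype.card_fin]
        norm_num
      · have IH : ∀ (Q : Type) [Group Q] [Finite Q], IsPGroup p Q → Nat.card Q < Nat.card P →
            HasRep Q 200 := fun Q _ _ hQ hlt => ih _ (hn ▸ hlt) Q rfl hQ
        rcases Nat.lt_or_ge p 3 with h3 | h3
        · obtain rfl : p = 2 := by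
            have := hp.two_le
            omega
          rcases Nat.lt_or_ge 4 (Nat.card A) with h4 | h4
          · exact case_two hG hP A hab hAc h4 200 (by norm_num) IH
          · exact (case_small hG A hC h4).mono (by norm_num)
        · exact case_odd hG hp h3 hP A hab hAc 200 (by norm_num) IH
  intro P _ _ hP
  exact key _ P rfl hP

end Pool.Agent.R191.EO.PG
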