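import Pool.Agent.R191.EO.Defs

/-!
# Pieces of the gluing lemma (MP_585e73_co)
-/

set_option autoImplicit false

namespace Pool.Agent.R191.EO

theorem HasRep.mono' {G : Type} [Group G] {r r' : ℝ} (h : HasRep G r) (hr : r ≤ r') :
    HasRep G r' := by
  obtain ⟨V, C, h1, h2, h3, arc, v0, c0, a, b, c, d, e, f⟩ := h
  refine ⟨V, C, h1, h2, h3, arc, v0, c0, a, b, c, d, e, f.trans ?_⟩
  exact mul_le_mul_of_nonneg_right hr (Nat.cast_nonneg _)

/-- A piece: a quotient of a subgroup with a representation. -/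
structure Piece (G : Type) [Group G] where
  /-- the subgroup -/
  H : Subgroup G
  /-- the quotient -/
  Q : Type
  /-- group structure -/
  grp : Group Q
  /-- finiteness -/
  fin : Finite Q
  /-- the quotient map -/
  φ : H →* Q
  surj : Function.Surjective φ
  /-- the cost -/
  r : ℝ
  rep : HasRep Q r

attribute [instance] Piece.grp Piece.fin

/-- the kernel condition -/
def Piece.Ker {G : Type} [Group G] (p : Piece G) (x : G) : Prop := ∃ h : x ∈ p.H, p.φ ⟨x, h⟩ = 1

/-- the weight of a piece -/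
noncomputable def Piece.w {G : Type} [Group G] (p : Piece G) : ℝ :=
  p.r * Nat.card p.Q / Nat.card p.H

theorem glueP (hG : GlueStatement) {G : Type} [Group G] [Finite G] {ι J : Type} [Fintype ι]
    [Fintype J] (P : ι → Piece G) (s : J → G)
    (hs : Subgroup.closure (Set.range s ∪ ⋃ i, ((P i).H : Set G)) = ⊤)
    (hF : ∀ F : Subgroup G, (∀ j, s j ∈ F) →
      (∀ I' : Set ι, (∀ x : G, (∀ i ∈ I', (P i).Ker x) → x = 1) →
        ∀ g : G, (∀ i ∈ I', ∃ f ∈ F, ∃ h ∈ (P i).H, g = f * h) → g ∈ F) → F = ⊤) :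
    HasRep G (3 + 2 * Fintype.card J + 2 * Fintype.card ι + ∑ i, (P i).w) :=
  hG G ι J (fun i => (P i).H) (fun i => (P i).Q) (fun i => (P i).φ) (fun i => (P i).surj)
    (fun i => (P i).r) (fun i => (P i).rep) s hs hF

/-- a subgroup with trivial kernel -/
def Piece.whole {G : Type} [Group G] [Finite G] (H : Subgroup G) (r : ℝ) (h : HasRep H r) :
    Piece G where
  H := H
  Q := H
  grp := inferInstance
  fin := inferInstance
  φ := MonoidHom.id H
  surj := Function.surjective_id
  r := r
  rep := h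

/-- a quotient of a subgroup -/
def Piece.quot {G : Type} [Group G] [Finite G] (H : Subgroup G) (M : Subgroup H) [M.Normal]
    (r : ℝ) (h : HasRep (H ⧸ M) r) : Piece G where
  H := H
  Q := H ⧸ M
  grp := inferInstance
  fin := inferInstance
  φ := QuotientGroup.mk' M
  surj := QuotientGroup.mk'_surjective M
  r := r
  rep := h

lemma Piece.whole_w {G : Type} [Group G] [Finite G] (H : Subgroup G) (r : ℝ) (h : HasRep H r) :
    (Piece.whole H r h).w = r := by
  have : (Nat.card H : ℝ) ≠ 0 := by exact_mod_cast Nat.card_pos.ne'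
  change r * Nat.card H / Nat.card H = r
  field_simp

lemma Piece.quot_w {G : Type} [Group G] [Finite G] (H : Subgroup G) (M : Subgroup H) [M.Normal]
    (r : ℝ) (h : HasRep (H ⧸ M) r) : (Piece.quot H M r h).w = r / Nat.card M := by
  change r * Nat.card (H ⧸ M) / Nat.card H = r / Nat.card M
  have h1 : (Nat.card M : ℝ) ≠ 0 := by exact_mod_cast Nat.card_pos.ne'
  have h2 : (Nat.card (H ⧸ M) : ℝ) ≠ 0 := by exact_mod_cast Nat.card_pos.ne'
  have h3 := Subgroup.card_eq_card_quotient_mul_card_subgroup M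
  rw [h3]
  push_cast
  field_simp

lemma Piece.whole_ker {G : Type} [Group G] [Finite G] (H : Subgroup G) (r : ℝ) (h : HasRep H r)
    (x : G) (hx : (Piece.whole H r h).Ker x) : x = 1 := by
  obtain ⟨h1, h2⟩ := hx
  have h3 : (⟨x, h1⟩ : H) = 1 := h2
  exact congrArg Subtype.val h3

lemma Piece.quot_ker {G : Type} [Group G] [Finite G] (H : Subgroup G) (M : Subgroup H) [M.Normal]
    (r : ℝ) (h : HasRep (H ⧸ M) r) (x : G) (hx : (Piece.quot H M r h).Ker x) :
    ∃ h : x ∈ H, (⟨x, h⟩ : H) ∈ M := by
  obtain ⟨h1, h2⟩ := hx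
  exact ⟨h1, (QuotientGroup.eq_one_iff (N := M) _).1 h2⟩

/-- generators -/
theorem rep_gens (hG : GlueStatement) {G : Type} [Group G] [Finite G] {J : Type} [Fintype J]
    (s : J → G) (hs : Subgroup.closure (Set.range s) = ⊤) :
    HasRep G (3 + 2 * Fintype.card J) := by
  have h := glueP hG (G := G) (ι := Empty) (fun i => i.elim) s (by
    rw [← top_le_iff, ← hs]
    exact Subgroup.closure_mono Set.subset_union_left) (fun F hF _ => by
      rw [← top_le_iff, ← hs, Subgroup.closure_le]
      rintro _ ⟨j, rfl⟩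
      exact hF j)
  simpa using h

/-- several normal subgroups of one subgroup with trivial intersection -/
theorem rep_glue (hG : GlueStatement) {G : Type} [Group G] [Finite G] {J : Type} [Fintype J]
    (s : J → G) (H : Subgroup G) (hs : Subgroup.closure (Set.range s ∪ (H : Set G)) = ⊤)
    (M1 M2 : Subgroup H) [M1.Normal] [M2.Normal] (hM : M1 ⊓ M2 = ⊥) (r1 r2 : ℝ)
    (h1 : HasRep (H ⧸ M1) r1) (h2 : HasRep (H ⧸ M2) r2) :
    HasRep G (7 + 2 * Fintype.card J + r1 / Nat.card M1 + r2 / Nat.card M2) := by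
  have h := glueP hG (G := G) (ι := Bool)
    (fun i => match i with
      | false => Piece.quot H M1 r1 h1
      | true => Piece.quot H M2 r2 h2) s (by
    rw [← top_le_iff, ← hs]
    apply Subgroup.closure_mono
    apply Set.union_subset_union_right
    exact Set.subset_iUnion_of_subset false (le_refl _)) (fun F hF hI => by
      rw [← top_le_iff, ← hs, Subgroup.closure_le]
      rintro g (⟨j, rfl⟩ | hg)
      · exact hF j
      · refine hI Set.univ (fun x hx => ?_) g (fun i _ => ⟨1, one_mem _, g, ?_, (one_mul g).symm⟩)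
        · obtain ⟨a1, a2⟩ := Piece.quot_ker H M1 r1 h1 x (hx false (Set.mem_univ _))
          obtain ⟨b1, b2⟩ := Piece.quot_ker H M2 r2 h2 x (hx true (Set.mem_univ _))
          have : (⟨x, a1⟩ : H) ∈ M1 ⊓ M2 := ⟨a2, b2⟩
          rw [hM, Subgroup.mem_bot] at this
          exact congrArg Subtype.val this
        · cases i <;> exact hg)
  refine h.mono' (le_of_eq ?_)
  rw [Fintype.sum_bool]
  simp only [Piece.quot_w, Fintype.card_bool]
  push_cast
  ring

end Pool.Agent.R191.EO
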