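import Pool.Agent.R191.EO.SimpleB

/-!
# Part F (MP_585e73_co): groups whose simple sections are generated by `D` elements
-/

set_option autoImplicit false
set_option linter.style.haveILetI false

namespace Pool.Agent.R191.EO

open Subgroup

namespace Simp

/-- The chief factor above the solvable normal subgroup `K` is generated by `D` solvable
subgroups. -/
theorem partB (hG : GlueStatement) (cS : ℝ)
    (hS : ∀ (G : Type) [Group G] [Finite G], Group.IsSolvable G → HasRep G cS)
    (D : ℕ) (G : Type) [Group G] [Finite G] (hD : SectGen D G)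
    (K R : Subgroup G) (hK : K.Normal) (hKs : Group.IsSolvable K) (hR : R.Normal) (hKR : K < R)
    (hmin : ∀ R' : Subgroup G, R'.Normal → K < R' → R' ≤ R → R' = R) :
    HasRep R (3 + 2 * D + D * cS) := by
  haveI := hK
  haveI := hR
  set π := QuotientGroup.mk' K with hπ
  have hπs : Function.Surjective π := QuotientGroup.mk'_surjective K
  have hker : π.ker = K := QuotientGroup.ker_mk' K
  set N := R.map π with hN
  haveI hNn : N.Normal := hR.map π hπs
  have hcomapN : N.comap π = R := by
    rw [hN, Subgroup.comap_map_eq, hker]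
    exact sup_eq_left.2 hKR.le
  have hNne : N ≠ ⊥ := by
    intro h
    rw [hN, Subgroup.map_eq_bot_iff, hker] at h
    exact absurd h (not_le_of_gt hKR)
  obtain ⟨C, hCc, hCN⟩ := minNormal (G ⧸ K) N hNn hNne (by
    intro N' hN' hne hle
    have h1 : K ≤ N'.comap π := by
      intro x hx
      have : π x = 1 := by rw [← hker] at hx; exact hx
      rw [Subgroup.mem_comap, this]
      exact one_mem _
    have h2 : K ≠ N'.comap π := by
      intro h
      apply hne
      rw [← Subgroup.map_comap_eq_self_of_surjective hπs N', ← h, Subgroup.map_eq_bot_iff, hker]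
    have h3 : N'.comap π ≤ R := by
      rw [← hcomapN]
      exact Subgroup.comap_mono hle
    have h4 := hmin _ (hN'.comap π) (lt_of_le_of_ne h1 h2) h3
    rw [← Subgroup.map_comap_eq_self_of_surjective hπs N', h4]) D (sectGen_surj hD π hπs)
  have hDne : Nonempty (Fin D) := by
    by_contra hcon
    rw [not_nonempty_iff] at hcon
    rw [iSup_of_empty] at hCN
    exact hNne hCN.symm
  let Ch : Fin D → Subgroup G := fun j => (C j).comap π
  have hKCh : ∀ j, K ≤ Ch j := by
    intro j x hx
    have : π x = 1 := by rw [← hker] at hx; exact hx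
    change π x ∈ C j
    rw [this]
    exact one_mem _
  have hChR : ∀ j, Ch j ≤ R := by
    intro j
    rw [← hcomapN, ← hCN]
    exact Subgroup.comap_mono (le_iSup C j)
  have hChs : ∀ j, Group.IsSolvable (Ch j) := by
    intro j
    haveI := hKs
    haveI : Group.IsSolvable (C j) := Group.isSolvable_of_comm (fun a b =>
      Subtype.ext (hCc j a a.2 b b.2))
    refine Group.isSolvable_of_ker_le_range (Subgroup.inclusion (hKCh j)) (π.subgroupComap (C j)) ?_
    intro x hx
    rw [MonoidHom.mem_ker] at hx
    have h1 : π (x : G) = 1 := congrArg Subtype.val hx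
    have h2 : (x : G) ∈ K := by
      rw [← hker]
      exact h1
    exact ⟨⟨x, h2⟩, Subtype.ext rfl⟩
  have hsup : (⨆ j, Ch j) = R := by
    apply le_antisymm (iSup_le hChR)
    have hmap : (⨆ j, Ch j).map π = N := by
      rw [Subgroup.map_iSup]
      rw [← hCN]
      exact iSup_congr fun j => Subgroup.map_comap_eq_self_of_surjective hπs (C j)
    have hKle : K ≤ ⨆ j, Ch j := by
      obtain ⟨j⟩ := hDne
      exact (hKCh j).trans (le_iSup Ch j)
    rw [← hcomapN, ← hmap, Subgroup.comap_map_eq, hker]
    exact sup_le le_rfl hKle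
  have hsub : (⨆ j, (Ch j).subgroupOf R) = ⊤ := by
    apply Subgroup.map_injective R.subtype_injective
    rw [Subgroup.map_iSup, ← MonoidHom.range_eq_map, Subgroup.range_subtype]
    conv_rhs => rw [← hsup]
    refine iSup_congr fun j => ?_
    exact Subgroup.map_subgroupOf_eq_of_le (hChR j)
  have h := subgroups hG (G := R) (ι := Fin D) (J := Empty) (fun j => j.elim)
    (fun j => (Ch j).subgroupOf R) (fun _ => cS) (fun j => by
      refine hS _ ?_
      haveI := hChs j
      exact Group.isSolvable_of_isSolvable_injective
        (f := (Subgroup.subgroupOfEquivOfLe (hChR j)).toMonoidHom)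
        (Subgroup.subgroupOfEquivOfLe (hChR j)).injective) (by
      rw [eq_top_iff, ← hsub, iSup_le_iff]
      intro j x hx
      exact Subgroup.subset_closure (Or.inr (Set.mem_iUnion.2 ⟨j, hx⟩)))
  refine h.mono (le_of_eq ?_)
  simp

end Simp

/-- **Part F.** -/
theorem simpleGen (hG : GlueStatement) (hS : SolvableStatement) : SimpleGenStatement := by
  intro D
  obtain ⟨c0, hc0⟩ := hS
  set cS := max c0 0 with hcS
  have hcS0 : 0 ≤ cS := le_max_right _ _
  have hA : ∀ (G : Type) [Group G] [Finite G], Group.IsSolvable G → HasRep G cS :=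
    fun G _ _ h => (hc0 G h).mono (le_max_left _ _)
  have hD0 : (0 : ℝ) ≤ D := Nat.cast_nonneg D
  set c : ℝ := 6 * (12 + 2 * D + (D + 1) * cS) with hc
  have hDc : 0 ≤ (D : ℝ) * cS := mul_nonneg hD0 hcS0
  have hcc : c = 72 + 12 * D + 6 * (D * cS) + 6 * cS := by rw [hc]; ring
  have hc00 : 0 ≤ c := by rw [hcc]; positivity
  refine ⟨c, ?_⟩
  have key : ∀ n : ℕ, ∀ (G : Type) [Group G] [Finite G], Nat.card G = n → SectGen D G →
      HasRep G c := by
    intro n
    induction n using Nat.strong_induction_on with
    | _ n ih =>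
      intro G _ _ hn hD
      by_cases hsol : Group.IsSolvable G
      · refine (hA G hsol).mono ?_
        rw [hcc]
        linarith
      obtain ⟨K, hKmem, hKmax⟩ := Set.Finite.exists_maximal
        (Set.toFinite {K : Subgroup G | K.Normal ∧ Group.IsSolvable K})
        ⟨⊥, (inferInstance : (⊥ : Subgroup G).Normal), inferInstance⟩
      obtain ⟨hKn, hKs⟩ := hKmem
      have hKtop : K < ⊤ := by
        rw [lt_top_iff_ne_top]
        rintro rfl
        haveI := hKs
        exact hsol (Group.isSolvable_of_isSolvable_injective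
          (f := (Subgroup.topEquiv (G := G)).symm.toMonoidHom)
          (Subgroup.topEquiv (G := G)).symm.injective)
      obtain ⟨R, hRmem, hRmin⟩ := Set.Finite.exists_minimal
        (Set.toFinite {R : Subgroup G | R.Normal ∧ K < R})
        ⟨⊤, (inferInstance : (⊤ : Subgroup G).Normal), hKtop⟩
      obtain ⟨hRn, hKR⟩ := hRmem
      have hRns : ¬ Group.IsSolvable R := by
        intro h
        exact absurd (hKmax (show R ∈ {K : Subgroup G | K.Normal ∧ Group.IsSolvable K} from
          ⟨hRn, h⟩) hKR.le) (not_le_of_gt hKR)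
      have hrR := Simp.partB hG cS hA D G hD K R hKn hKs hRn hKR
        (fun R' h1 h2 h3 => le_antisymm h3 (hRmin (show R' ∈ {R : Subgroup G | R.Normal ∧ K < R}
          from ⟨h1, h2⟩) h3))
      have h := Simp.partA hG c hc00 G R hRn hRns _ hrR (by
        intro Q hQ
        have hQ2 := Solv.two_le_card Q hQ
        have hMcard : Nat.card (Q.subgroupOf (normalizer (Q : Set G))) = Nat.card Q :=
          Nat.card_congr (Subgroup.subgroupOfEquivOfLe Subgroup.le_normalizer).toEquiv
        have hle : Nat.card (normalizer (Q : Set G)) ≤ Nat.card G := Subgroup.card_le_card_group _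
        refine ih _ ?_ _ rfl ?_
        · have h1 := Solv.card_quot_lt (Q.subgroupOf (normalizer (Q : Set G)))
            (by rw [hMcard]; exact hQ2)
          omega
        · exact Simp.sectGen_surj (Simp.sectGen_sub hD _) (QuotientGroup.mk' _)
            (QuotientGroup.mk'_surjective _))
      refine h.mono ?_
      rw [hcc]
      linarith
  intro G _ _ hs
  exact key _ G rfl hs

end Pool.Agent.R191.EO
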