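import Pool.Agent.R191.EO.Solv
import Pool.Agent.R191.EO.Cor
import Pool.Agent.R191.EO.DefsF

/-!
# Part F (MP_585e73_co): section lemmas and the Frattini glue
-/

set_option autoImplicit false
set_option linter.style.haveILetI false

namespace Pool.Agent.R191.EO.Simp

open Subgroup

/-- Sections through surjective maps from subgroups. -/
lemma sectGen_gen {D : ℕ} {G : Type} [Group G] (h : SectGen D G) (H : Subgroup G) {T : Type}
    [Group T] (f : H →* T) (hf : Function.Surjective f) (hT : IsSimpleGroup T) :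
    ∃ s : Fin D → T, Subgroup.closure (Set.range s) = ⊤ := by
  let e : H ⧸ f.ker ≃* T := QuotientGroup.quotientKerEquivOfSurjective f hf
  have hs : IsSimpleGroup (H ⧸ f.ker) := (MulEquiv.isSimpleGroup_congr e).2 hT
  obtain ⟨s, hs⟩ := h H f.ker hs
  refine ⟨fun i => e (s i), ?_⟩
  have h1 : Set.range (fun i => e (s i)) = (e : H ⧸ f.ker →* T) '' Set.range s := by
    rw [← Set.range_comp]
    rfl
  rw [h1, ← MonoidHom.map_closure, hs]
  exact Subgroup.map_top_of_surjective _ e.surjective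

lemma sectGen_sub {D : ℕ} {G : Type} [Group G] (h : SectGen D G) (H : Subgroup G) :
    SectGen D H := by
  intro H' M _ hs
  let e : H' ≃* H'.map H.subtype := H'.equivMapOfInjective H.subtype H.subtype_injective
  exact sectGen_gen h (H'.map H.subtype) ((QuotientGroup.mk' M).comp (e.symm : H'.map H.subtype →* H'))
    ((QuotientGroup.mk'_surjective M).comp e.symm.surjective) hs

lemma sectGen_surj {D : ℕ} {G Q : Type} [Group G] [Group Q] (h : SectGen D G) (f : G →* Q)
    (hf : Function.Surjective f) : SectGen D Q := by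
  intro H' M _ hs
  exact sectGen_gen h (H'.comap f) ((QuotientGroup.mk' M).comp (f.subgroupComap H'))
    ((QuotientGroup.mk'_surjective M).comp (f.subgroupComap_surjective_of_surjective H' hf)) hs

/-- Frattini gluing over a non-solvable normal subgroup. -/
theorem partA (hG : GlueStatement) (c : ℝ) (hc0 : 0 ≤ c) (G : Type) [Group G] [Finite G]
    (R : Subgroup G) (hRn : R.Normal) (hns : ¬ Group.IsSolvable R) (rR : ℝ)
    (hrR : HasRep R rR)
    (ih : ∀ Q : Subgroup G, Q ≠ ⊥ →
      HasRep (normalizer (Q : Set G) ⧸ Q.subgroupOf (normalizer (Q : Set G))) c) :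
    HasRep G (9 + rR + 5 / 6 * c) := by
  haveI := hRn
  -- two primes
  obtain ⟨p, q, hp, hq, hpq, hpR, hqR⟩ : ∃ p q : ℕ, p.Prime ∧ q.Prime ∧ p ≠ q ∧
      p ∣ Nat.card R ∧ q ∣ Nat.card R := by
    by_contra hcon
    push Not at hcon
    have h1 : Nat.card R ≠ 1 := by
      intro h1
      apply hns
      have : Subsingleton R := (Nat.card_eq_one_iff_unique.1 h1).1
      exact Group.isSolvable_of_comm (fun a b => Subsingleton.elim _ _)
    obtain ⟨p, hp, hpd⟩ := Nat.exists_prime_and_dvd h1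
    haveI : Fact p.Prime := ⟨hp⟩
    have h2 : IsPGroup p R := by
      rw [IsPGroup.iff_card]
      refine ⟨(Nat.card R).primeFactorsList.length, ?_⟩
      refine Nat.eq_prime_pow_of_unique_prime_dvd Nat.card_pos.ne' ?_
      intro d hd hdR
      by_contra hne
      exact hcon p d hp hd (fun e => hne e.symm) hpd hdR
    haveI := h2.isNilpotent
    exact hns inferInstance
  haveI : Fact p.Prime := ⟨hp⟩
  haveI : Fact q.Prime := ⟨hq⟩
  have syl : ∀ (l : ℕ) (_ : Fact l.Prime), l ∣ Nat.card R → ∃ Q : Subgroup G, Q ≠ ⊥ ∧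
      IsPGroup l Q ∧ normalizer (Q : Set G) ⊔ R = ⊤ := by
    intro l hl hlR
    let S : Sylow l R := default
    refine ⟨(S : Subgroup R).map R.subtype, ?_, S.isPGroup'.map R.subtype,
      Sylow.normalizer_sup_eq_top S⟩
    intro h
    rw [Subgroup.map_eq_bot_iff_of_injective _ R.subtype_injective] at h
    have h1 := S.not_dvd_index
    rw [h, Subgroup.index_bot] at h1
    exact h1 hlR
  obtain ⟨P1, hP1, hP1p, hf1⟩ := syl p ⟨hp⟩ hpR
  obtain ⟨P2, hP2, hP2p, hf2⟩ := syl q ⟨hq⟩ hqR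
  have dec : ∀ (Q : Subgroup G), normalizer (Q : Set G) ⊔ R = ⊤ → ∀ g : G, ∃ ρ ∈ R,
      ∃ n ∈ normalizer (Q : Set G), g = ρ * n := by
    intro Q hQ g
    have hg : g ∈ (R ⊔ normalizer (Q : Set G) : Subgroup G) := by
      rw [sup_comm, hQ]; exact Subgroup.mem_top g
    have hg' : g ∈ ((R ⊔ normalizer (Q : Set G) : Subgroup G) : Set G) := hg
    rw [Subgroup.normal_mul, Set.mem_mul] at hg'
    obtain ⟨ρ, hρ, n, hn, rfl⟩ := hg'
    exact ⟨ρ, hρ, n, hn, rfl⟩
  have hcop : (Nat.card P1).Coprime (Nat.card P2) := by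
    obtain ⟨a, ha⟩ := IsPGroup.iff_card.1 hP1p
    obtain ⟨b, hb⟩ := IsPGroup.iff_card.1 hP2p
    rw [ha, hb]
    exact Nat.Coprime.pow _ _ ((Nat.coprime_primes hp hq).2 hpq)
  have hdisj : P1 ⊓ P2 = ⊥ := (IsPGroup.disjoint_of_ne p q hpq P1 P2 hP1p hP2p).eq_bot
  have r1 := ih P1 hP1
  have r2 := ih P2 hP2
  let P : Fin 3 → Piece G := ![Piece.whole R rR hrR,
    Piece.quot (normalizer (P1 : Set G)) (P1.subgroupOf (normalizer (P1 : Set G))) c r1,
    Piece.quot (normalizer (P2 : Set G)) (P2.subgroupOf (normalizer (P2 : Set G))) c r2]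
  have hMcard : ∀ Q : Subgroup G, Nat.card (Q.subgroupOf (normalizer (Q : Set G))) = Nat.card Q :=
    fun Q => Nat.card_congr (Subgroup.subgroupOfEquivOfLe Subgroup.le_normalizer).toEquiv
  have h := glueP hG (G := G) (J := Empty) P (fun j => j.elim) (by
    rw [← top_le_iff]
    intro g _
    obtain ⟨ρ, hρ, n, hn, rfl⟩ := dec P1 hf1 g
    refine mul_mem (Subgroup.subset_closure ?_) (Subgroup.subset_closure ?_)
    · right
      exact Set.mem_iUnion.2 ⟨0, hρ⟩
    · right
      exact Set.mem_iUnion.2 ⟨1, hn⟩) (by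
    intro F _ hF
    have hRF : R ≤ F := by
      intro x hx
      refine hF {0} (fun y hy => ?_) x (fun i hi => ?_)
      · exact Piece.whole_ker R rR hrR y (hy 0 rfl)
      · obtain rfl : i = 0 := hi
        exact ⟨1, one_mem _, x, hx, (one_mul x).symm⟩
    rw [← top_le_iff]
    intro g _
    refine hF {1, 2} (fun y hy => ?_) g (fun i hi => ?_)
    · obtain ⟨a2, a3⟩ := Piece.quot_ker _ _ c r1 y (hy 1 (by simp))
      obtain ⟨b2, b3⟩ := Piece.quot_ker _ _ c r2 y (hy 2 (by simp))
      have a4 : y ∈ P1 := a3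
      have b4 : y ∈ P2 := b3
      have h5 : y ∈ P1 ⊓ P2 := ⟨a4, b4⟩
      rw [hdisj, Subgroup.mem_bot] at h5
      exact h5
    · rcases hi with hi | hi
      · subst hi
        obtain ⟨ρ, hρ, n, hn, hgn⟩ := dec P1 hf1 g
        exact ⟨ρ, hRF hρ, n, hn, hgn⟩
      · obtain rfl : i = 2 := hi
        obtain ⟨ρ, hρ, n, hn, hgn⟩ := dec P2 hf2 g
        exact ⟨ρ, hRF hρ, n, hn, hgn⟩)
  refine h.mono' ?_
  rw [Fin.sum_univ_three]
  have e0 : (P 0).w = rR := Piece.whole_w R rR hrR
  have e1 : (P 1).w = c / Nat.card P1 := by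
    rw [← hMcard]
    exact Piece.quot_w _ _ c r1
  have e2 : (P 2).w = c / Nat.card P2 := by
    rw [← hMcard]
    exact Piece.quot_w _ _ c r2
  rw [e0, e1, e2]
  have hn := Solv.numbers (Nat.card P1) (Nat.card P2) (Solv.two_le_card P1 hP1)
    (Solv.two_le_card P2 hP2) hcop
  have h6 : c / Nat.card P1 + c / Nat.card P2 ≤ 5 / 6 * c := by
    have : c / Nat.card P1 + c / Nat.card P2 = c * (1 / Nat.card P1 + 1 / Nat.card P2) := by ring
    rw [this]
    nlinarith
  simp only [Fintype.card_empty, Fintype.card_fin]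
  push_cast
  linarith

end Pool.Agent.R191.EO.Simp
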