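import Pool.Agent.R191.EO.SimpleA

/-!
# Part F (MP_585e73_co): a minimal normal subgroup is generated by `D` abelian subgroups
-/

set_option autoImplicit false
set_option linter.style.haveILetI false

namespace Pool.Agent.R191.EO.Simp

open Subgroup

/-- the conjugate subgroup -/
def cj {B : Type} [Group B] (g : B) (T : Subgroup B) : Subgroup B :=
  T.map (MulAut.conj g).toMonoidHom

lemma mem_cj {B : Type} [Group B] (g : B) (T : Subgroup B) (x : B) :
    x ∈ cj g T ↔ g⁻¹ * x * g ∈ T := by
  unfold cj
  rw [Subgroup.mem_map]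
  constructor
  · rintro ⟨t, ht, rfl⟩
    have : g⁻¹ * ((MulAut.conj g).toMonoidHom t) * g = t := by
      simp [MulAut.conj_apply, mul_assoc]
    rw [this]
    exact ht
  · intro h
    exact ⟨_, h, by simp [MulAut.conj_apply, mul_assoc]⟩

/-- nontrivial subgroups of `N` normalized by `N` -/
def Good {B : Type} [Group B] (N T : Subgroup B) : Prop :=
  T ≤ N ∧ T ≠ ⊥ ∧ ∀ n ∈ N, ∀ t ∈ T, n * t * n⁻¹ ∈ T

lemma Good.cj {B : Type} [Group B] {N T : Subgroup B} (hN : N.Normal) (h : Good N T) (g : B) :
    Good N (cj g T) := by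
  obtain ⟨h1, h2, h3⟩ := h
  refine ⟨?_, ?_, ?_⟩
  · intro x hx
    rw [mem_cj] at hx
    have := hN.conj_mem _ (h1 hx) g
    simpa [mul_assoc] using this
  · intro h
    apply h2
    rw [eq_bot_iff]
    intro t ht
    have : g * t * g⁻¹ ∈ Simp.cj g T := by
      rw [mem_cj]
      simpa [mul_assoc] using ht
    rw [h, Subgroup.mem_bot] at this
    rw [Subgroup.mem_bot]
    have h4 : g * t = g := by
      rwa [mul_inv_eq_one] at this
    simpa using h4
  · intro n hn t ht
    rw [mem_cj] at ht ⊢
    have e : g⁻¹ * (n * t * n⁻¹) * g = (g⁻¹ * n * g) * (g⁻¹ * t * g) * (g⁻¹ * n * g)⁻¹ := by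
      group
    rw [e]
    refine h3 _ ?_ _ ht
    have := hN.conj_mem _ hn g⁻¹
    simpa using this

theorem minNormal (B : Type) [Group B] [Finite B] (N : Subgroup B) (hN : N.Normal)
    (hNne : N ≠ ⊥) (hmin : ∀ N' : Subgroup B, N'.Normal → N' ≠ ⊥ → N' ≤ N → N' = N) (D : ℕ)
    (hD : SectGen D B) :
    ∃ C : Fin D → Subgroup B, (∀ j, ∀ x ∈ C j, ∀ y ∈ C j, x * y = y * x) ∧ (⨆ j, C j) = N := by
  classical
  -- the minimal subgroup
  obtain ⟨T, hT, hTmin⟩ := Set.Finite.exists_minimal
    (Set.toFinite {T : Subgroup B | Good N T})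
    ⟨N, le_rfl, hNne, fun n hn t ht => hN.conj_mem t ht n⟩
  have hT' : Good N T := hT
  have hTmin' : ∀ U : Subgroup B, Good N U → U ≤ T → T ≤ U := fun U hU hUT => hTmin hU hUT
  obtain ⟨hTN, hTne, hTn⟩ := hT'
  -- minimality of the conjugates
  have hcmin : ∀ (g : B) (U : Subgroup B), Good N U → U ≤ cj g T → cj g T ≤ U := by
    intro g U hU hle
    have h1 : Good N (cj g⁻¹ U) := hU.cj hN g⁻¹
    have h2 : cj g⁻¹ U ≤ T := by
      intro x hx
      rw [mem_cj] at hx
      have h3 := hle hx
      rw [mem_cj] at h3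
      simpa [mul_assoc] using h3
    have h3 := hTmin' _ h1 h2
    intro x hx
    rw [mem_cj] at hx
    have h4 := h3 hx
    rw [mem_cj] at h4
    simpa [mul_assoc] using h4
  -- different conjugates commute
  have hcomm : ∀ g g' : B, cj g T ≠ cj g' T → ∀ a ∈ cj g T, ∀ b ∈ cj g' T, a * b = b * a := by
    intro g g' hne a ha b hb
    have hA : Good N (cj g T) := hT.cj hN g
    have hA' : Good N (cj g' T) := hT.cj hN g'
    have hbot : cj g T ⊓ cj g' T = ⊥ := by
      by_contra hnb
      have hI : Good N (cj g T ⊓ cj g' T) := by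
        refine ⟨inf_le_left.trans hA.1, hnb, ?_⟩
        rintro n hn t ⟨ht1, ht2⟩
        exact ⟨hA.2.2 n hn t ht1, hA'.2.2 n hn t ht2⟩
      have h1 := hcmin g _ hI inf_le_left
      have h2 := hcmin g' _ hI inf_le_right
      exact hne (le_antisymm (h1.trans inf_le_right) (h2.trans inf_le_left))
    have h3 : a * b * a⁻¹ * b⁻¹ ∈ cj g T ⊓ cj g' T := by
      refine Subgroup.mem_inf.2 ⟨?_, ?_⟩
      · have e : a * b * a⁻¹ * b⁻¹ = a * (b * a⁻¹ * b⁻¹) := by group
        rw [e]
        exact mul_mem ha (hA.2.2 b (hA'.1 hb) _ (inv_mem ha))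
      · exact mul_mem (hA'.2.2 a (hA.1 ha) _ hb) (inv_mem hb)
    rw [hbot, Subgroup.mem_bot, mul_inv_eq_one, mul_inv_eq_iff_eq_mul] at h3
    exact h3
  -- N is generated by the conjugates
  have hgenN : N = Subgroup.normalClosure (T : Set B) := by
    symm
    refine hmin _ Subgroup.normalClosure_normal ?_ ?_
    · intro h
      apply hTne
      rw [eq_bot_iff, ← h]
      exact Subgroup.le_normalClosure
    · exact Subgroup.normalClosure_le_normal hTN
  have hcj1 : cj 1 T = T := by
    ext x
    rw [mem_cj]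
    simp
  have hconj : ∀ x ∈ Group.conjugatesOfSet (T : Set B), ∃ g : B, x ∈ cj g T := by
    intro x hx
    obtain ⟨a, ha, hax⟩ := Group.mem_conjugatesOfSet_iff.1 hx
    obtain ⟨g, hg⟩ := isConj_iff.1 hax
    refine ⟨g, ?_⟩
    rw [mem_cj, ← hg]
    simpa [mul_assoc] using ha
  -- T is simple
  have hsimple : IsSimpleGroup T := by
    rw [Subgroup.isSimpleGroup_iff]
    refine ⟨hTne, ?_⟩
    intro U hUT hUn
    by_cases hU : U = ⊥
    · exact Or.inl hU
    right
    refine le_antisymm hUT (hTmin' U ⟨hUT.trans hTN, hU, ?_⟩ hUT)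
    -- one direction for conjugates
    have hone : ∀ g x : B, x ∈ cj g T → ∀ u ∈ U, x * u * x⁻¹ ∈ U := by
      intro g x hx u hu
      by_cases hg : cj g T = T
      · rw [hg] at hx
        have := hUn.conj_mem ⟨u, hUT hu⟩ hu ⟨x, hx⟩
        simpa [Subgroup.mem_subgroupOf] using this
      · have h1 : x * u = u * x := by
          refine hcomm g 1 (by rw [hcj1]; exact hg) x hx u ?_
          rw [hcj1]
          exact hUT hu
        rw [h1, mul_inv_cancel_right]
        exact hu
    have hle : N ≤ normalizer (U : Set B) := by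
      rw [hgenN, Subgroup.normalClosure, Subgroup.closure_le]
      intro x hx
      obtain ⟨g, hg⟩ := hconj x hx
      change x ∈ normalizer (U : Set B)
      rw [Subgroup.mem_normalizer_iff]
      intro h
      constructor
      · intro hh
        exact hone g x hg h hh
      · intro hh
        have := hone g x⁻¹ (inv_mem hg) _ hh
        simpa [mul_assoc] using this
    intro n hn t ht
    have := hle hn
    rw [Subgroup.mem_normalizer_iff] at this
    exact (this t).1 ht
  -- the generators
  obtain ⟨s, hs⟩ := sectGen_gen hD T (MonoidHom.id T) Function.surjective_id hsimple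
  have hTgen : Subgroup.closure (Set.range fun j => (s j : B)) = T := by
    have h1 : (Set.range fun j => (s j : B)) = T.subtype '' Set.range s := by
      rw [← Set.range_comp]
      rfl
    rw [h1, ← MonoidHom.map_closure, hs, ← MonoidHom.range_eq_map, Subgroup.range_subtype]
  -- representatives of the conjugates
  let rep : Set.range (fun g : B => cj g T) → B := fun A => A.2.choose
  have hrep : ∀ A : Set.range (fun g : B => cj g T), cj (rep A) T = A.1 :=
    fun A => A.2.choose_spec
  let C : Fin D → Subgroup B := fun j =>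
    Subgroup.closure (Set.range fun A => rep A * (s j : B) * (rep A)⁻¹)
  have hmem : ∀ j A, rep A * (s j : B) * (rep A)⁻¹ ∈ cj (rep A) T := by
    intro j A
    rw [mem_cj]
    simp [mul_assoc]
  refine ⟨C, ?_, ?_⟩
  · intro j x hx y hy
    have hcm : IsMulCommutative (Subgroup.closure
        (Set.range fun A => rep A * (s j : B) * (rep A)⁻¹)) := by
      apply Subgroup.isMulCommutative_closure
      rintro _ ⟨A, rfl⟩ _ ⟨A', rfl⟩
      by_cases hAA : A = A'
      · subst hAA
        rfl
      · refine hcomm (rep A) (rep A') ?_ _ (hmem j A) _ (hmem j A')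
        rw [hrep, hrep]
        exact fun h => hAA (Subtype.ext h)
    have := hcm.is_comm.comm ⟨x, hx⟩ ⟨y, hy⟩
    exact congrArg Subtype.val this
  · apply le_antisymm
    · refine iSup_le fun j => ?_
      rw [Subgroup.closure_le]
      rintro _ ⟨A, rfl⟩
      exact (hT.cj hN (rep A)).1 (hmem j A)
    · rw [hgenN, Subgroup.normalClosure, Subgroup.closure_le]
      intro x hx
      obtain ⟨g, hg⟩ := hconj x hx
      let A : Set.range (fun g : B => cj g T) := ⟨cj g T, g, rfl⟩
      have hA : cj (rep A) T = cj g T := hrep A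
      rw [← hA] at hg
      have hle : cj (rep A) T ≤ ⨆ j, C j := by
        have e : cj (rep A) T = Subgroup.closure
            ((MulAut.conj (rep A)).toMonoidHom '' (Set.range fun j => (s j : B))) := by
          rw [← MonoidHom.map_closure, hTgen]
          rfl
        rw [e, Subgroup.closure_le]
        rintro _ ⟨_, ⟨j, rfl⟩, rfl⟩
        refine (le_iSup C j) (Subgroup.subset_closure ⟨A, ?_⟩)
        simp [MulAut.conj_apply]
      exact hle hg

end Pool.Agent.R191.EO.Simp
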