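import Pool.Agent.R191.EO.Piece

/-!
# Finite solvable groups (MP_585e73_co, part E)
-/

set_option autoImplicit false
set_option linter.style.haveILetI false

namespace Pool.Agent.R191.EO.Solv

open Subgroup
open scoped commutatorElement

/-- a nontrivial finite solvable group has a nontrivial normal subgroup of prime power order -/
lemma exists_normal_pgroup (G : Type) [Group G] [Finite G] [Nontrivial G] (hs : Group.IsSolvable G) :
    ∃ q : ℕ, q.Prime ∧ ∃ N : Subgroup G, N.Normal ∧ N ≠ ⊥ ∧ IsPGroup q N := by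
  classical
  obtain ⟨n, hn⟩ := hs.solvable
  have hex : ∃ n, derivedSeries G n = ⊥ := ⟨n, hn⟩
  have h0 : Nat.find hex ≠ 0 := by
    intro h
    have h1 := Nat.find_spec hex
    rw [h, derivedSeries_zero] at h1
    exact top_ne_bot h1
  obtain ⟨m, hm⟩ := Nat.exists_eq_succ_of_ne_zero h0
  have h1 : derivedSeries G (m + 1) = ⊥ := by
    have := Nat.find_spec hex
    rwa [hm] at this
  have h2 : derivedSeries G m ≠ ⊥ := Nat.find_min hex (by omega)
  set A := derivedSeries G m with hA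
  have hAn : A.Normal := derivedSeries_normal G m
  have hcomm : ∀ x ∈ A, ∀ y ∈ A, x * y = y * x := by
    intro x hx y hy
    have h3 : ⁅x, y⁆ ∈ derivedSeries G (m + 1) := by
      rw [derivedSeries_succ]
      exact commutator_mem_commutator hx hy
    rw [h1, Subgroup.mem_bot, commutatorElement_eq_one_iff_mul_comm] at h3
    exact h3
  have hcard : Nat.card A ≠ 1 := by
    intro h
    exact h2 (Subgroup.card_eq_one.1 h)
  obtain ⟨q, hq, hqd⟩ := Nat.exists_prime_and_dvd hcard
  haveI : Fact q.Prime := ⟨hq⟩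
  obtain ⟨x, hx⟩ := exists_prime_orderOf_dvd_card' (G := A) q hqd
  let N : Subgroup G :=
    { carrier := {x | x ∈ A ∧ x ^ q = 1}
      mul_mem' := by
        rintro a b ⟨ha, ha'⟩ ⟨hb, hb'⟩
        refine ⟨mul_mem ha hb, ?_⟩
        have : Commute a b := hcomm a ha b hb
        rw [this.mul_pow, ha', hb', one_mul]
      one_mem' := ⟨one_mem _, one_pow _⟩
      inv_mem' := by
        rintro a ⟨ha, ha'⟩
        exact ⟨inv_mem ha, by rw [inv_pow, ha', inv_one]⟩ }
  refine ⟨q, hq, N, ⟨?_⟩, ?_, ?_⟩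
  · rintro a ⟨ha, ha'⟩ g
    refine ⟨hAn.conj_mem a ha g, ?_⟩
    rw [conj_pow, ha', mul_one, mul_inv_cancel]
  · intro h
    have h3 : (x : G) ∈ N := ⟨x.2, by
      rw [← hx, ← Subgroup.coe_pow, pow_orderOf_eq_one, Subgroup.coe_one]⟩
    rw [h, Subgroup.mem_bot] at h3
    have h4 : x = 1 := Subtype.ext h3
    rw [h4, orderOf_one] at hx
    exact hq.one_lt.ne hx
  · rw [isPGroup_iff_pow_pow_eq_one]
    rintro ⟨a, ha, ha'⟩
    exact ⟨1, Subtype.ext (by simpa using ha')⟩

lemma numbers (a b : ℕ) (ha : 2 ≤ a) (hb : 2 ≤ b) (hab : a.Coprime b) :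
    (1 : ℝ) / a + 1 / b ≤ 5 / 6 := by
  have h : 3 ≤ a ∨ 3 ≤ b := by
    by_contra h
    push Not at h
    obtain rfl : a = 2 := by omega
    obtain rfl : b = 2 := by omega
    norm_num at hab
  have ha' : (2 : ℝ) ≤ a := by exact_mod_cast ha
  have hb' : (2 : ℝ) ≤ b := by exact_mod_cast hb
  have e1 : (1 : ℝ) / a ≤ 1 / 2 := one_div_le_one_div_of_le (by norm_num) ha'
  have e2 : (1 : ℝ) / b ≤ 1 / 2 := one_div_le_one_div_of_le (by norm_num) hb'
  rcases h with h | h
  · have h' : (3 : ℝ) ≤ a := by exact_mod_cast h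
    have e3 : (1 : ℝ) / a ≤ 1 / 3 := one_div_le_one_div_of_le (by norm_num) h'
    linarith
  · have h' : (3 : ℝ) ≤ b := by exact_mod_cast h
    have e3 : (1 : ℝ) / b ≤ 1 / 3 := one_div_le_one_div_of_le (by norm_num) h'
    linarith

lemma two_le_card {G : Type} [Group G] [Finite G] (K : Subgroup G) (h : K ≠ ⊥) :
    2 ≤ Nat.card K := by
  have h1 : Nat.card K ≠ 1 := fun e => h (Subgroup.card_eq_one.1 e)
  have h2 : 0 < Nat.card K := Nat.card_pos
  omega

/-- the configuration of the induction step -/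
lemma config (G : Type) [Group G] [Finite G] (hs : Group.IsSolvable G)
    (hnp : ∀ p : ℕ, p.Prime → ¬ IsPGroup p G) :
    ∃ (p q : ℕ) (K Q : Subgroup G), p.Prime ∧ q.Prime ∧ p ≠ q ∧ K.Normal ∧ K ≠ ⊥ ∧ Q ≠ ⊥ ∧
      IsPGroup p K ∧ IsPGroup q Q ∧ ∀ g : G, ∃ ρ ∈ K ⊔ Q, ∃ n ∈ normalizer (Q : Set G),
        g = ρ * n := by
  have hnt : Nontrivial G := by
    by_contra h
    rw [not_nontrivial_iff_subsingleton] at h
    exact hnp 2 Nat.prime_two (IsPGroup.of_subsingleton 2 G)
  obtain ⟨p, hp, K0, hK0n, hK0, hK0p⟩ := exists_normal_pgroup G hs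
  haveI : Fact p.Prime := ⟨hp⟩
  obtain ⟨K, ⟨hKn, hKne, hKp⟩, hKmax⟩ := Set.Finite.exists_maximal
    (Set.toFinite {K : Subgroup G | K.Normal ∧ K ≠ ⊥ ∧ IsPGroup p K}) ⟨K0, hK0n, hK0, hK0p⟩
  have hKtop : K ≠ ⊤ := by
    rintro rfl
    exact hnp p hp (hKp.of_equiv Subgroup.topEquiv)
  haveI := hKn
  haveI : Nontrivial (G ⧸ K) := QuotientGroup.nontrivial_iff.2 hKtop
  have hsq : Group.IsSolvable (G ⧸ K) := inferInstance
  obtain ⟨q, hq, N', hN'n, hN'ne, hN'q⟩ := exists_normal_pgroup (G ⧸ K) hsq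
  haveI : Fact q.Prime := ⟨hq⟩
  haveI := hN'n
  set π := QuotientGroup.mk' K with hπ
  have hπs : Function.Surjective π := QuotientGroup.mk'_surjective K
  have hker : π.ker = K := QuotientGroup.ker_mk' K
  set R := N'.comap π with hR
  haveI hRn : R.Normal := Subgroup.Normal.comap hN'n π
  have hKR : K ≤ R := by
    intro x hx
    have : π x = 1 := by rw [← hker] at hx; exact hx
    rw [hR, Subgroup.mem_comap, this]
    exact one_mem _
  have hmapR : R.map π = N' := Subgroup.map_comap_eq_self_of_surjective hπs N'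
  have hRK : ¬ R ≤ K := by
    intro h
    apply hN'ne
    rw [← hmapR, Subgroup.map_eq_bot_iff, hker]
    exact h
  have hpq : p ≠ q := by
    rintro rfl
    have h1 : IsPGroup p R := hN'q.comap_of_ker_isPGroup π (by rw [hker]; exact hKp)
    have h2 : R ≠ ⊥ := by
      intro h
      apply hRK
      rw [h]
      exact bot_le
    exact hRK (hKmax ⟨hRn, h2, h1⟩ hKR)
  let S : Sylow q R := default
  set Q : Subgroup G := (S : Subgroup R).map R.subtype with hQ
  have hQq : IsPGroup q Q := S.isPGroup'.map R.subtype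
  have hQR : Q ≤ R := Subgroup.map_subtype_le _
  have hKrel : K.relIndex R = Nat.card N' := by
    have e : K = (⊥ : Subgroup (G ⧸ K)).comap π := ((MonoidHom.comap_bot π).trans hker).symm
    have h1 : ((⊥ : Subgroup (G ⧸ K)).comap π).relIndex R = Nat.card N' := by
      rw [Subgroup.relIndex_comap, hmapR, Subgroup.relIndex_bot_left]
    rw [← e] at h1
    exact h1
  have hQrel : ¬ q ∣ Q.relIndex R := by
    have h1 : Q.relIndex R = (S : Subgroup R).index := by
      rw [Subgroup.relIndex, Subgroup.subgroupOf, hQ,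
        Subgroup.comap_map_eq_self_of_injective (Subgroup.subtype_injective R)]
    rw [h1]
    exact S.not_dvd_index
  have hRle : R ≤ K ⊔ Q := by
    rw [← Subgroup.relIndex_eq_one]
    have d1 : (K ⊔ Q).relIndex R ∣ K.relIndex R := Subgroup.relIndex_dvd_of_le_left R le_sup_left
    have d2 : (K ⊔ Q).relIndex R ∣ Q.relIndex R := Subgroup.relIndex_dvd_of_le_left R le_sup_right
    obtain ⟨k, hk⟩ := IsPGroup.iff_card.1 hN'q
    rw [hKrel, hk] at d1
    obtain ⟨i, -, hi⟩ := (Nat.dvd_prime_pow hq).1 d1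
    rcases Nat.eq_zero_or_pos i with h | h
    · rw [hi, h, pow_zero]
    · exfalso
      apply hQrel
      refine (dvd_pow_self q h.ne').trans ?_
      rw [← hi]
      exact d2
  have hQne : Q ≠ ⊥ := by
    intro h
    rw [h, sup_bot_eq] at hRle
    exact hRK hRle
  have hfr : normalizer (Q : Set G) ⊔ R = ⊤ := Sylow.normalizer_sup_eq_top S
  refine ⟨p, q, K, Q, hp, hq, hpq, hKn, hKne, hQne, hKp, hQq, fun g => ?_⟩
  have hg : g ∈ (R ⊔ normalizer (Q : Set G) : Subgroup G) := by
    rw [sup_comm, hfr]; exact Subgroup.mem_top g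
  have hg' : g ∈ ((R ⊔ normalizer (Q : Set G) : Subgroup G) : Set G) := hg
  rw [Subgroup.normal_mul, Set.mem_mul] at hg'
  obtain ⟨ρ, hρ, n, hn, rfl⟩ := hg'
  exact ⟨ρ, hRle hρ, n, hn, rfl⟩

lemma card_quot_lt {G : Type} [Group G] [Finite G] (K : Subgroup G) (hK : 2 ≤ Nat.card K) :
    Nat.card (G ⧸ K) < Nat.card G := by
  have h := Subgroup.card_eq_card_quotient_mul_card_subgroup K
  have h2 : 0 < Nat.card (G ⧸ K) := Nat.card_pos
  rw [h]
  nlinarith

/-- the quotient of the whole group -/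
def topPiece {G : Type} [Group G] [Finite G] (K : Subgroup G) [K.Normal] (r : ℝ)
    (h : HasRep (G ⧸ K) r) : Piece G where
  H := ⊤
  Q := G ⧸ K
  grp := inferInstance
  fin := inferInstance
  φ := (QuotientGroup.mk' K).comp (⊤ : Subgroup G).subtype
  surj := by
    intro x
    obtain ⟨y, rfl⟩ := QuotientGroup.mk'_surjective K x
    exact ⟨⟨y, Subgroup.mem_top y⟩, rfl⟩
  r := r
  rep := h

lemma topPiece_w {G : Type} [Group G] [Finite G] (K : Subgroup G) [K.Normal] (r : ℝ)
    (h : HasRep (G ⧸ K) r) : (topPiece K r h).w = r / Nat.card K := by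
  change r * Nat.card (G ⧸ K) / Nat.card (⊤ : Subgroup G) = r / Nat.card K
  have h1 : (Nat.card K : ℝ) ≠ 0 := by exact_mod_cast Nat.card_pos.ne'
  have h2 : (Nat.card (G ⧸ K) : ℝ) ≠ 0 := by exact_mod_cast Nat.card_pos.ne'
  have h3 := Subgroup.card_eq_card_quotient_mul_card_subgroup K
  rw [Subgroup.card_top, h3]
  push_cast
  field_simp

lemma topPiece_ker {G : Type} [Group G] [Finite G] (K : Subgroup G) [K.Normal] (r : ℝ)
    (h : HasRep (G ⧸ K) r) (x : G) (hx : (topPiece K r h).Ker x) : x ∈ K := by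
  obtain ⟨h1, h2⟩ := hx
  exact (QuotientGroup.eq_one_iff (N := K) _).1 h2

/-- The induction step. -/
lemma step (hG : GlueStatement) (cA c : ℝ) (hc : 6 * (11 + 2 * cA) ≤ c) (hc0 : 0 ≤ c) (G : Type)
    [Group G] [Finite G] (K Q : Subgroup G) (hKn : K.Normal) (hK : 2 ≤ Nat.card K)
    (hQ : 2 ≤ Nat.card Q) (hcop : (Nat.card K).Coprime (Nat.card Q)) (hdisj : K ⊓ Q = ⊥)
    (hfr : ∀ g : G, ∃ ρ ∈ K ⊔ Q, ∃ n ∈ normalizer (Q : Set G), g = ρ * n)
    (rK : HasRep K cA) (rQ : HasRep Q cA) (r1 : HasRep (G ⧸ K) c)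
    (r2 : HasRep (normalizer (Q : Set G) ⧸ Q.subgroupOf (normalizer (Q : Set G))) c) :
    HasRep G c := by
  let P : Fin 4 → Piece G := ![Piece.whole K cA rK, Piece.whole Q cA rQ, topPiece K c r1,
    Piece.quot (normalizer (Q : Set G)) (Q.subgroupOf (normalizer (Q : Set G))) c r2]
  have hMcard : Nat.card (Q.subgroupOf (normalizer (Q : Set G))) = Nat.card Q :=
    Nat.card_congr (Subgroup.subgroupOfEquivOfLe Subgroup.le_normalizer).toEquiv
  have h := glueP hG (G := G) (J := Empty) P (fun j => j.elim) (by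
    rw [← top_le_iff]
    intro g _
    apply Subgroup.subset_closure
    right
    exact Set.mem_iUnion.2 ⟨2, Subgroup.mem_top g⟩) (by
    intro F _ hF
    have hKF : K ≤ F := by
      intro x hx
      refine hF {0} (fun y hy => ?_) x (fun i hi => ?_)
      · exact Piece.whole_ker K cA rK y (hy 0 rfl)
      · obtain rfl : i = 0 := hi
        exact ⟨1, one_mem _, x, hx, (one_mul x).symm⟩
    have hQF : Q ≤ F := by
      intro x hx
      refine hF {1} (fun y hy => ?_) x (fun i hi => ?_)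
      · exact Piece.whole_ker Q cA rQ y (hy 1 rfl)
      · obtain rfl : i = 1 := hi
        exact ⟨1, one_mem _, x, hx, (one_mul x).symm⟩
    have hsup : K ⊔ Q ≤ F := sup_le hKF hQF
    rw [← top_le_iff]
    intro g _
    refine hF {2, 3} (fun y hy => ?_) g (fun i hi => ?_)
    · have h1 : y ∈ K := topPiece_ker K c r1 y (hy 2 (by simp))
      obtain ⟨h2, h3⟩ := Piece.quot_ker _ _ c r2 y (hy 3 (by simp))
      have h4 : y ∈ Q := h3
      have h5 : y ∈ K ⊓ Q := ⟨h1, h4⟩
      rw [hdisj, Subgroup.mem_bot] at h5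
      exact h5
    · rcases hi with hi | hi
      · subst hi
        exact ⟨1, one_mem _, g, Subgroup.mem_top g, (one_mul g).symm⟩
      · obtain rfl : i = 3 := hi
        obtain ⟨ρ, hρ, n, hn, hgn⟩ := hfr g
        exact ⟨ρ, hsup hρ, n, hn, hgn⟩)
  refine h.mono' ?_
  rw [Fin.sum_univ_four]
  have e0 : (P 0).w = cA := Piece.whole_w K cA rK
  have e1 : (P 1).w = cA := Piece.whole_w Q cA rQ
  have e2 : (P 2).w = c / Nat.card K := topPiece_w K c r1
  have e3 : (P 3).w = c / Nat.card Q := by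
    rw [← hMcard]
    exact Piece.quot_w _ _ c r2
  rw [e0, e1, e2, e3]
  have hn := numbers (Nat.card K) (Nat.card Q) hK hQ hcop
  have h6 : c / Nat.card K + c / Nat.card Q ≤ 5 / 6 * c := by
    have : c / Nat.card K + c / Nat.card Q = c * (1 / Nat.card K + 1 / Nat.card Q) := by ring
    rw [this]
    nlinarith
  simp only [Fintype.card_empty, Fintype.card_fin]
  push_cast
  linarith

/-- **Part E.** -/
theorem solvable (hG : GlueStatement) (hP : PGroupStatement) : SolvableStatement := by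
  obtain ⟨c0, hc0⟩ := hP
  set cA := max c0 0 with hcA
  have hcA0 : 0 ≤ cA := le_max_right _ _
  have hA : ∀ (p : ℕ), p.Prime → ∀ (P : Type) [Group P] [Finite P], IsPGroup p P → HasRep P cA :=
    fun p hp P _ _ h => (hc0 p hp P h).mono' (le_max_left _ _)
  refine ⟨6 * (11 + 2 * cA), ?_⟩
  have key : ∀ n : ℕ, ∀ (G : Type) [Group G] [Finite G], Nat.card G = n → Group.IsSolvable G →
      HasRep G (6 * (11 + 2 * cA)) := by
    intro n
    induction n using Nat.strong_induction_on with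
    | _ n ih =>
      intro G _ _ hn hs
      by_cases hp : ∃ p : ℕ, p.Prime ∧ IsPGroup p G
      · obtain ⟨p, hp, hpG⟩ := hp
        exact (hA p hp G hpG).mono' (by linarith)
      · push Not at hp
        obtain ⟨p, q, K, Q, hpp, hqq, hpq, hKn, hKne, hQne, hKp, hQq, hfr⟩ := config G hs hp
        haveI : Fact p.Prime := ⟨hpp⟩
        haveI : Fact q.Prime := ⟨hqq⟩
        haveI := hKn
        have hK2 := two_le_card K hKne
        have hQ2 := two_le_card Q hQne
        have hcop : (Nat.card K).Coprime (Nat.card Q) := by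
          obtain ⟨a, ha⟩ := IsPGroup.iff_card.1 hKp
          obtain ⟨b, hb⟩ := IsPGroup.iff_card.1 hQq
          rw [ha, hb]
          exact Nat.Coprime.pow _ _ ((Nat.coprime_primes hpp hqq).2 hpq)
        have hdisj : K ⊓ Q = ⊥ := (IsPGroup.disjoint_of_ne p q hpq K Q hKp hQq).eq_bot
        have hMcard : Nat.card (Q.subgroupOf (normalizer (Q : Set G))) = Nat.card Q :=
          Nat.card_congr (Subgroup.subgroupOfEquivOfLe Subgroup.le_normalizer).toEquiv
        have hle : Nat.card (normalizer (Q : Set G)) ≤ Nat.card G := Subgroup.card_le_card_group _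
        refine step hG cA _ le_rfl (by positivity) G K Q hKn hK2 hQ2 hcop hdisj hfr
          (hA p hpp K hKp) (hA q hqq Q hQq) ?_ ?_
        · exact ih _ (hn ▸ card_quot_lt K hK2) (G ⧸ K) rfl inferInstance
        · refine ih _ ?_ _ rfl inferInstance
          have h1 := card_quot_lt (Q.subgroupOf (normalizer (Q : Set G))) (by rw [hMcard]; exact hQ2)
          omega
  intro G _ _ hs
  exact key _ G rfl hs

end Pool.Agent.R191.EO.Solv
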